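import Mathlib.Data.ZMod.Basic
import Pool.Agent.MP_96f5a9_co.h22.Final

-- ======== part 0: formerly Pool.Agent.MP_96f5a9_co.h96.ThinA
section MrgPart0

/-! One thin side: the model and the inequality in a long direction. -/

set_option autoImplicit false

namespace Pool.Agent.MP_96f5a9_co.h96

open Finset Pool.Agent.MP_96f5a9_co.h22

section Least
variable {Γ : Type*} [AddCancelCommMonoid Γ] (Z : AddSubmonoid Γ)

theorem least_not_add {x τ z : Γ} {l : ℕ} (hmin : ∀ l', x + l' • τ ∈ Z → l ≤ l') (hz : z ∈ Z)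
    (hl : 1 ≤ l) : x + l • τ ≠ z + τ := by
  intro h
  have h3 : x + (l - 1) • τ + τ = z + τ := by
    rw [← h, add_assoc, ← succ_nsmul, Nat.sub_add_cancel hl]
  have := hmin (l - 1) (by rw [add_right_cancel h3]; exact hz)
  omega

theorem least_closed {x x' τ w : Γ} {k l : ℕ} (hτ : τ ∈ Z) (hnot : ∀ z ∈ Z, x ≠ z + τ)
    (hx : x = x' + k • τ + w) (hw : w ∈ Z) (hl : x' + l • τ ∈ Z) (hle : l ≤ k) : l = k := by
  by_contra h
  obtain ⟨s, rfl⟩ : ∃ s, k = l + s + 1 := ⟨k - l - 1, by omega⟩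
  refine hnot (x' + l • τ + s • τ + w) (Z.add_mem (Z.add_mem hl (Z.nsmul_mem hτ s)) hw) ?_
  rw [hx, succ_nsmul, add_nsmul]
  abel

end Least

variable {ι : Type} [Fintype ι] [DecidableEq ι]

omit [Fintype ι] in
theorem axis_atom (S : AddSubmonoid (ι → ℕ)) (i : ι) {b : ℕ} (hb : 0 < b)
    (hS : (Pi.single i b : ι → ℕ) ∈ S)
    (h : ∀ k k', 0 < k → 0 < k' → k + k' = b → (Pi.single i k : ι → ℕ) ∈ S →
      (Pi.single i k' : ι → ℕ) ∈ S → False) : (Pi.single i b : ι → ℕ) ∈ Gen S := by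
  refine ⟨hS, fun h0 => ?_, fun x hx y hy hxy => ?_⟩
  · have := congrFun h0 i
    simp at this
    omega
  · have hi := congrFun hxy i
    simp only [Pi.add_apply, Pi.single_eq_same] at hi
    have hk : ∀ k, k ≠ i → x k = 0 ∧ y k = 0 := by
      intro k hk
      have := congrFun hxy k
      simp only [Pi.add_apply, Pi.single_eq_of_ne hk] at this
      omega
    have ex : x = Pi.single i (x i) := by
      funext k
      by_cases h' : k = i
      · subst h'; simp
      · rw [Pi.single_eq_of_ne h']; exact (hk k h').1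
    have ey : y = Pi.single i (y i) := by
      funext k
      by_cases h' : k = i
      · subst h'; simp
      · rw [Pi.single_eq_of_ne h']; exact (hk k h').2
    by_cases h1 : x i = 0
    · left; rw [ex, h1]; simp
    by_cases h2 : y i = 0
    · right; rw [ey, h2]; simp
    exact (h (x i) (y i) (by omega) (by omega) hi (ex ▸ hx) (ey ▸ hy)).elim

omit [Fintype ι] [DecidableEq ι] in
theorem part_le {G : Finset (ι → ℕ)} {t : (ι → ℕ) → ℕ} {g : ι → ℕ} (hg : g ∈ G) (k : ι) :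
    t g * g k ≤ (∑ u ∈ G, t u • u) k := by
  rw [Finset.sum_apply]
  exact Finset.single_le_sum (f := fun u => (t u • u) k) (fun _ _ => Nat.zero_le _) hg

omit [Fintype ι] [DecidableEq ι] in
theorem le_part {G : Finset (ι → ℕ)} {t : (ι → ℕ) → ℕ} {g : ι → ℕ} (hg : g ∈ G) (ht : t g ≠ 0)
    (k : ι) : g k ≤ (∑ u ∈ G, t u • u) k :=
  le_trans (Nat.le_mul_of_pos_left _ (Nat.pos_of_ne_zero ht)) (part_le hg k)

omit [Fintype ι] [DecidableEq ι] in
theorem split_off {G : Finset (ι → ℕ)} (t : (ι → ℕ) → ℕ) {g : ι → ℕ} (hg : g ∈ G) {k : ℕ}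
    (hk : k ≤ t g) :
    ∃ t' : (ι → ℕ) → ℕ, ∑ u ∈ G, t u • u = ∑ u ∈ G, t' u • u + k • g := by
  classical
  refine ⟨Function.update t g (t g - k), ?_⟩
  rw [← Finset.sum_erase_add _ _ hg, ← Finset.sum_erase_add G _ hg, add_assoc,
    Function.update_self, ← add_nsmul, Nat.sub_add_cancel hk]
  congr 1
  exact Finset.sum_congr rfl fun u hu => by rw [Function.update_of_ne (ne_of_mem_erase hu)]

/-- the multiplicity of an axis is bounded by the length of another side -/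
theorem mult_le (S : AddSubmonoid (ι → ℕ)) (c : ι → ℕ) (G : Finset (ι → ℕ))
    (hbox : ∀ x, x ∉ S → ∀ i, x i < c i) (hG : ∀ g, g ∈ G ↔ g ∈ Gen S) {i j : ι} (hij : i ≠ j)
    (m : ℕ) (hm : ∀ k, 0 < k → k < m → (Pi.single i k : ι → ℕ) ∉ S) :
    m ≤ (c j + 1) ^ G.card := by
  classical
  have hex : ∀ x : ℕ, ∃ t : (ι → ℕ) → ℕ,
      (Pi.single i x + Pi.single j (c j) : ι → ℕ) = ∑ g ∈ G, t g • g := by
    intro x
    refine exists_fact S G hG _ ?_
    by_contra h
    have := hbox _ h j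
    simp [hij.symm] at this
  choose t ht using hex
  have h1 : (Fintype.piFinset fun _ : G => range (c j + 1)).card = (c j + 1) ^ G.card := by
    simp [Fintype.card_piFinset]
  rw [← h1, ← card_range m]
  refine Finset.card_le_card_of_injOn (fun x => fun g : G => t x g) ?_ ?_
  · intro x hx
    have hx : x < m := by simpa using hx
    simp only [Finset.mem_coe, Fintype.mem_piFinset, mem_range]
    rintro ⟨g, hg⟩
    by_cases h0 : t x g = 0
    · simp [h0]
    have h2 := part_le (t := t x) hg j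
    rw [← ht x] at h2
    simp only [Pi.add_apply, Pi.single_eq_of_ne hij.symm, Pi.single_eq_same, zero_add] at h2
    have h3 : g j ≠ 0 := by
      intro hj
      have eg : g = Pi.single i (g i) := by
        funext k
        by_cases h' : k = i
        · subst h'; simp
        · rw [Pi.single_eq_of_ne h']
          by_cases h'' : k = j
          · rw [h'', hj]
          · have := le_part (t := t x) hg h0 k
            rw [← ht x] at this
            simpa [h', h''] using this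
      have h4 := le_part (t := t x) hg h0 i
      rw [← ht x] at h4
      simp only [Pi.add_apply, Pi.single_eq_of_ne hij, Pi.single_eq_same, add_zero] at h4
      have h5 := (hG g).1 hg
      refine hm (g i) ?_ (by omega) (eg ▸ h5.1)
      by_contra h6
      apply h5.2.1
      rw [eg, show g i = 0 by omega]; simp
    have : t x g * 1 ≤ t x g * g j := Nat.mul_le_mul_left _ (Nat.one_le_iff_ne_zero.2 h3)
    show t x g < c j + 1
    omega
  · intro x _ y _ h
    have h2 : (Pi.single i x + Pi.single j (c j) : ι → ℕ) = Pi.single i y + Pi.single j (c j) := by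
      rw [ht x, ht y]
      exact Finset.sum_congr rfl fun g hg => by rw [show t x g = t y g from congrFun h ⟨g, hg⟩]
    have := congrFun h2 i
    simpa [hij] using this

/-- A monoid whose gaps lie in a box, a marked direction `j`, the multiplicities `m i` of the other
axes and a generator `v` below them of least positive `j`-th entry `m j`. -/
structure TS (ι : Type) [Fintype ι] [DecidableEq ι] where
  S : AddSubmonoid (ι → ℕ)
  c : ι → ℕ
  m : ι → ℕ
  G : Finset (ι → ℕ)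
  j : ι
  v : ι → ℕ
  hc : ∀ i, 0 < c i
  hbox : ∀ x, x ∉ S → ∀ i, x i < c i
  hG : ∀ g, g ∈ G ↔ g ∈ Gen S
  hm : ∀ i, 0 < m i
  hmS : ∀ i, i ≠ j → (Pi.single i (m i) : ι → ℕ) ∈ S
  hmin : ∀ i, i ≠ j → ∀ k, 0 < k → k < m i → (Pi.single i k : ι → ℕ) ∉ S
  hvG : v ∈ G
  hvl : ∀ i, i ≠ j → v i < m i
  hvj : v j = m j
  hlev : ∀ g ∈ G, (∀ i, i ≠ j → g i < m i) → g j = 0 ∨ m j ≤ g j
  hmc : m j ≤ c j

namespace TS

variable (D : TS ι)

theorem GS {g : ι → ℕ} (hg : g ∈ D.G) : g ∈ D.S := ((D.hG g).1 hg).1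

theorem sum_mem (t : (ι → ℕ) → ℕ) : ∑ u ∈ D.G, t u • u ∈ D.S :=
  D.S.sum_mem fun _ hu => D.S.nsmul_mem (D.GS hu) _

theorem mem_of_le {x : ι → ℕ} {i : ι} (h : D.c i ≤ x i) : x ∈ D.S := by
  by_contra h'
  have := D.hbox x h' i
  omega

/-- axis generator -/
def E (i : ι) : ι → ℕ := Pi.single i (D.m i)

/-- residue box -/
def R : Finset (ι → ℕ) := Fintype.piFinset fun k => range (D.m k)

/-- number of layers above a residue -/
def q (r : ι → ℕ) : ℕ := qq (D.c D.j) (D.m D.j) (r D.j)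

/-- total weight -/
def W : ℕ := ∑ r ∈ D.R, D.q r

/-- generators in the slab of the direction `i` -/
def X (i : ι) : Finset (ι → ℕ) :=
  D.G.filter fun g => (∀ k, k ≠ i → g k < D.m k) ∧ D.m i ≤ g i

theorem mem_R {r : ι → ℕ} : r ∈ D.R ↔ ∀ k, r k < D.m k := by
  simp [R, Fintype.mem_piFinset]

theorem mem_X {i : ι} {g : ι → ℕ} :
    g ∈ D.X i ↔ g ∈ D.G ∧ (∀ k, k ≠ i → g k < D.m k) ∧ D.m i ≤ g i := mem_filter

theorem E_self (i : ι) : D.E i i = D.m i := by simp [E]

theorem E_ne {i k : ι} (h : k ≠ i) : D.E i k = 0 := by simp [E, h]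

theorem E_mem_X {i : ι} (hi : i ≠ D.j) : D.E i ∈ D.X i := by
  rw [mem_X, D.hG]
  refine ⟨axis_atom D.S i (D.hm i) (D.hmS i hi) fun k k' h1 h2 h3 h4 _ =>
    D.hmin i hi k h1 (by omega) h4, fun k hk => ?_, (D.E_self i).ge⟩
  rw [D.E_ne hk]; exact D.hm k

theorem X_disj {i k : ι} (h : i ≠ k) : Disjoint (D.X i) (D.X k) := by
  rw [Finset.disjoint_left]
  intro g hi hk
  have h1 := (D.mem_X.1 hi).2.2
  have := (D.mem_X.1 hk).2.1 i h
  omega

theorem sum_X_le : ∑ i, (D.X i).card ≤ D.G.card := by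
  rw [← Finset.card_biUnion (fun i _ j _ h => D.X_disj h)]
  refine Finset.card_le_card fun g hg => ?_
  obtain ⟨i, _, hi⟩ := mem_biUnion.1 hg
  exact (D.mem_X.1 hi).1

theorem sum_X_lt {g : ι → ℕ} (hg : g ∈ D.G) (h : ∀ i, g i < D.m i) :
    ∑ i, (D.X i).card + 1 ≤ D.G.card := by
  rw [← Finset.card_biUnion (fun i _ j _ h => D.X_disj h)]
  refine Finset.card_lt_card ⟨fun g hg => ?_, fun hs => ?_⟩
  · obtain ⟨i, _, hi⟩ := mem_biUnion.1 hg
    exact (D.mem_X.1 hi).1
  · obtain ⟨i, _, hi⟩ := mem_biUnion.1 (hs hg)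
    have := (D.mem_X.1 hi).2.2
    have := h i
    omega

theorem ex_lv (i : ι) (r : ι → ℕ) : r + qq (D.c i) (D.m i) (r i) • D.E i ∈ D.S := by
  refine D.mem_of_le (i := i) ?_
  have h2 : ¬ (qq (D.c i) (D.m i) (r i) < qq (D.c i) (D.m i) (r i)) := lt_irrefl _
  rw [lt_qq (D.hm i)] at h2
  simpa [E_self, mul_comm] using h2

open Classical in
/-- level of the first element of the monoid above `r` along the axis `i` -/
noncomputable def lv (i : ι) (r : ι → ℕ) : ℕ :=
  Nat.find (⟨_, D.ex_lv i r⟩ : ∃ l : ℕ, r + l • D.E i ∈ D.S)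

/-- first element of the monoid above `r` along the axis `i` -/
noncomputable def ap (i : ι) (r : ι → ℕ) : ι → ℕ := r + D.lv i r • D.E i

theorem ap_mem (i : ι) (r : ι → ℕ) : D.ap i r ∈ D.S := by
  classical
  exact Nat.find_spec (⟨_, D.ex_lv i r⟩ : ∃ l : ℕ, r + l • D.E i ∈ D.S)

theorem lv_le (i : ι) (r : ι → ℕ) {l : ℕ} (h : r + l • D.E i ∈ D.S) : D.lv i r ≤ l := by
  classical
  exact Nat.find_min' (⟨_, D.ex_lv i r⟩ : ∃ l : ℕ, r + l • D.E i ∈ D.S) h

theorem ap_self (i : ι) (r : ι → ℕ) : D.ap i r i = r i + D.m i * D.lv i r := by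
  simp [ap, E_self, mul_comm]

theorem ap_ne {i k : ι} (r : ι → ℕ) (h : k ≠ i) : D.ap i r k = r k := by
  simp [ap, D.E_ne h]

theorem top_lt {c m r l : ℕ} (hc : 0 < c) (hm : 0 < m) (hr : r < m) (hl : l ≤ qq c m r) :
    r + m * l < c + m := by
  rcases Nat.eq_zero_or_pos l with h | h
  · rw [h]; omega
  · have h4 : l - 1 < qq c m r := by omega
    rw [lt_qq hm] at h4
    have : m * l = m * (l - 1) + m := by
      conv_lhs => rw [← Nat.sub_add_cancel h]
      ring
    omega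

theorem ap_top (i : ι) {r : ι → ℕ} (hr : r ∈ D.R) : D.ap i r i < D.c i + D.m i := by
  rw [ap_self]
  exact top_lt (D.hc i) (D.hm i) (D.mem_R.1 hr i) (D.lv_le i r (D.ex_lv i r))

theorem ap_not_add (i : ι) {r : ι → ℕ} (hr : r ∈ D.R) : ∀ z ∈ D.S, D.ap i r ≠ z + D.E i := by
  intro z hz h
  by_cases hl : 1 ≤ D.lv i r
  · exact least_not_add D.S (fun _ h => D.lv_le i r h) hz hl h
  · have h1 := congrFun h i
    rw [ap_self, show D.lv i r = 0 by omega] at h1
    simp only [Pi.add_apply, E_self] at h1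
    have := D.mem_R.1 hr i
    omega

theorem ap_inj (i : ι) {r r' : ι → ℕ} (hr : r ∈ D.R) (hr' : r' ∈ D.R)
    (h : D.ap i r = D.ap i r') : r = r' := by
  have hr := D.mem_R.1 hr
  have hr' := D.mem_R.1 hr'
  funext k
  by_cases hk : k = i
  · subst hk
    have h1 := congrFun h k
    rw [ap_self, ap_self] at h1
    have h2 := congrArg (· % D.m k) h1
    simpa [Nat.add_mul_mod_self_left, Nat.mod_eq_of_lt (hr k), Nat.mod_eq_of_lt (hr' k)] using h2
  · have h1 := congrFun h k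
    rwa [D.ap_ne r hk, D.ap_ne r' hk] at h1

theorem ap_closed {i : ι} (hi : i ≠ D.j) {r y w : ι → ℕ} (hr : r ∈ D.R) (hy : y ∈ D.S)
    (hw : w ∈ D.S) (h : D.ap i r = y + w) : ∃ r' ∈ D.R, D.ap i r' = y := by
  set r' : ι → ℕ := Function.update y i (y i % D.m i) with hr'
  have hri : r' i = y i % D.m i := by simp [hr']
  have hrk : ∀ k, k ≠ i → r' k = y k := fun k h => by simp [hr', h]
  have hxr : y = r' + (y i / D.m i) • D.E i := by
    funext k
    by_cases h : k = i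
    · subst h
      simp only [Pi.add_apply, Pi.smul_apply, smul_eq_mul, E_self, hri]
      rw [mul_comm]
      exact (Nat.mod_add_div _ _).symm
    · simp [hrk k h, D.E_ne h]
  refine ⟨r', D.mem_R.2 fun k => ?_, ?_⟩
  · by_cases hk : k = i
    · subst hk; rw [hri]; exact Nat.mod_lt _ (D.hm k)
    · have h1 := congrFun h k
      rw [D.ap_ne r hk] at h1
      have := D.mem_R.1 hr k
      simp only [Pi.add_apply] at h1
      rw [hrk k hk]
      omega
  · have h1 := least_closed D.S (D.hmS i hi) (D.ap_not_add i hr) (x' := r') (w := w)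
      (k := y i / D.m i) (by rw [h]; exact congrArg (· + w) hxr) hw (D.ap_mem i r')
      (D.lv_le i r' (hxr ▸ hy))
    rw [ap, h1]; exact hxr.symm

theorem thick_gen {i : ι} (hi : i ≠ D.j) {g : ι → ℕ} (hg : g ∈ D.G)
    (t : (ι → ℕ) → (ι → ℕ) → ℕ) (ht : ∀ r, D.ap i r = ∑ u ∈ D.G, t r u • u) :
    ∑ r ∈ D.R, D.q r * (t r g * g i) ≤ ∑ r ∈ D.R, D.q r * (D.c i + D.m i - D.ap i r i) := by
  classical
  refine layer_cake _ _ _ _ fun w => ?_
  by_cases hv : ∃ k, w < k * g i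
  swap
  · refine ⟨id, fun x hx => absurd ⟨_, hx.2⟩ hv, fun x _ hx => absurd ⟨_, hx⟩ hv⟩
  have hk1 : w < Nat.find hv * g i := Nat.find_spec hv
  have split : ∀ r, ∃ r', r ∈ D.R → w < t r g * g i →
      r' ∈ D.R ∧ D.ap i r = D.ap i r' + Nat.find hv • g := by
    intro r
    by_cases h : r ∈ D.R ∧ w < t r g * g i
    · obtain ⟨t', h1⟩ := split_off (t r) hg (Nat.find_min' hv h.2)
      rw [← ht r] at h1
      obtain ⟨r', h2, h3⟩ := D.ap_closed hi h.1 (D.sum_mem _) (D.S.nsmul_mem (D.GS hg) _) h1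
      exact ⟨r', fun _ _ => ⟨h2, by rw [h3]; exact h1⟩⟩
    · exact ⟨r, fun h1 h2 => absurd ⟨h1, h2⟩ h⟩
  choose φ hφ using split
  refine ⟨φ, fun x hx x' hx' h => ?_, fun x hx hxv => ?_⟩
  · refine D.ap_inj i hx.1 hx'.1 ?_
    rw [(hφ x hx.1 hx.2).2, (hφ x' hx'.1 hx'.2).2, h]
  · obtain ⟨h1, h2⟩ := hφ x hx hxv
    have h3 := congrFun h2 i
    have h4 := congrFun h2 D.j
    rw [Pi.add_apply, D.ap_ne x hi.symm, D.ap_ne _ hi.symm] at h4
    simp only [Pi.add_apply, Pi.smul_apply, smul_eq_mul] at h3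
    have h5 := D.ap_top i hx
    exact ⟨h1, by omega, qq_anti (by omega)⟩

theorem thick_need {i : ι} (hi : i ≠ D.j) {M : ℕ} (hM : ∀ k, k ≠ D.j → D.m k ≤ M)
    {r : ι → ℕ} (hr : r ∈ D.R) (t : (ι → ℕ) → ℕ) (ht : D.ap i r = ∑ u ∈ D.G, t u • u) :
    D.ap i r i ≤ ∑ g ∈ (D.X i).erase (D.E i), t g * g i + Fintype.card ι * M * M := by
  classical
  set K := (univ.erase i).erase D.j with hK
  have one : ∀ g ∈ D.G, t g * g i ≤ (if g ∈ (D.X i).erase (D.E i) then t g * g i else 0) +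
      M * ∑ k ∈ K, t g * g k := by
    intro g hg
    split_ifs with h
    · omega
    by_cases h0 : t g = 0
    · simp [h0]
    have hle : ∀ k, g k ≤ D.ap i r k := fun k => by rw [ht]; exact le_part hg h0 k
    have hlt : ∀ k, k ≠ i → g k < D.m k := fun k hk => by
      have := hle k
      rw [D.ap_ne r hk] at this
      exact this.trans_lt (D.mem_R.1 hr k)
    have hne : g ≠ D.E i := by
      intro he
      obtain ⟨t', h1⟩ := split_off t hg (Nat.one_le_iff_ne_zero.2 h0)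
      rw [← ht, one_nsmul] at h1
      exact D.ap_not_add i hr _ (D.sum_mem _) (he ▸ h1)
    have hgi : g i < D.m i := by
      by_contra h1
      exact h (mem_erase.2 ⟨hne, D.mem_X.2 ⟨hg, hlt, by omega⟩⟩)
    have hgj : g D.j = 0 := by
      have h1 := hlt D.j hi.symm
      rcases D.hlev g hg (fun k _ => by
        by_cases hk : k = i
        · rw [hk]; exact hgi
        · exact hlt k hk) with h2 | h2
      · exact h2
      · omega
    by_cases hz : g i = 0
    · simp [hz]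
    have hex : ∃ k ∈ K, g k ≠ 0 := by
      by_contra hc
      push Not at hc
      have eg : g = Pi.single i (g i) := by
        funext k
        by_cases h' : k = i
        · subst h'; simp
        · rw [Pi.single_eq_of_ne h']
          by_cases h'' : k = D.j
          · rw [h'', hgj]
          · exact hc k (by simp [hK, h', h''])
      exact D.hmin i hi (g i) (by omega) hgi (eg ▸ D.GS hg)
    obtain ⟨k, hk, hk0⟩ := hex
    have h1 : t g * g k ≤ ∑ k ∈ K, t g * g k :=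
      Finset.single_le_sum (f := fun k => t g * g k) (fun _ _ => Nat.zero_le _) hk
    have h2 : t g * 1 ≤ t g * g k := Nat.mul_le_mul_left _ (Nat.one_le_iff_ne_zero.2 hk0)
    have h3 := hM i hi
    calc t g * g i ≤ (∑ k ∈ K, t g * g k) * M := Nat.mul_le_mul (by omega) (by omega)
      _ = _ := by ring
  have h1 : ∀ k, D.ap i r k = ∑ g ∈ D.G, t g * g k := fun k => by
    rw [ht]; simp [Finset.sum_apply]
  rw [h1 i]
  refine (Finset.sum_le_sum one).trans ?_
  rw [Finset.sum_add_distrib, ← Finset.mul_sum, Finset.sum_comm]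
  refine Nat.add_le_add ?_ ?_
  · rw [← Finset.sum_filter]
    exact Finset.sum_le_sum_of_subset fun g hg => (mem_filter.1 hg).2
  · have h2 : ∑ k ∈ K, ∑ g ∈ D.G, t g * g k ≤ K.card • M := by
      refine Finset.sum_le_card_nsmul _ _ _ fun k hk => ?_
      have h3 := ne_of_mem_erase hk
      have h4 := ne_of_mem_erase (mem_of_mem_erase hk)
      rw [← h1 k, D.ap_ne r h4]
      exact (D.mem_R.1 hr k).le.trans (hM k h3)
    have h3 : K.card ≤ Fintype.card ι := Finset.card_le_univ _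
    rw [smul_eq_mul] at h2
    calc _ ≤ M * (Fintype.card ι * M) :=
          Nat.mul_le_mul_left _ (h2.trans (Nat.mul_le_mul_right _ h3))
      _ = _ := by ring

/-- the inequality in a long direction -/
theorem thick_nat {i : ι} (hi : i ≠ D.j) {M : ℕ} (hM : ∀ k, k ≠ D.j → D.m k ≤ M) :
    D.W * (D.c i + D.m i) ≤
      (D.X i).card * ∑ r ∈ D.R, D.q r * (D.c i + D.m i - D.ap i r i) +
        D.W * (Fintype.card ι * M * M) := by
  classical
  choose t ht using fun r => exists_fact D.S D.G D.hG _ (D.ap_mem i r)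
  set A := ∑ r ∈ D.R, D.q r * (D.c i + D.m i - D.ap i r i) with hA
  have h1 : ∑ r ∈ D.R, D.q r * D.ap i r i ≤
      ((D.X i).card - 1) * A + D.W * (Fintype.card ι * M * M) := by
    calc _ ≤ ∑ r ∈ D.R, (∑ g ∈ (D.X i).erase (D.E i), D.q r * (t r g * g i) +
            D.q r * (Fintype.card ι * M * M)) := by
          refine Finset.sum_le_sum fun r hr => ?_
          rw [← Finset.mul_sum, ← mul_add]
          exact Nat.mul_le_mul_left _ (D.thick_need hi hM hr _ (ht r))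
      _ ≤ _ := by
          rw [Finset.sum_add_distrib, ← Finset.sum_mul, Finset.sum_comm,
            ← Finset.card_erase_of_mem (D.E_mem_X hi), ← smul_eq_mul]
          refine Nat.add_le_add_right ?_ _
          exact Finset.sum_le_card_nsmul _ _ _ fun g hg =>
            D.thick_gen hi (D.mem_X.1 (mem_of_mem_erase hg)).1 t ht
  have h2 : D.W * (D.c i + D.m i) = ∑ r ∈ D.R, D.q r * D.ap i r i + A := by
    rw [hA, ← Finset.sum_add_distrib, W, Finset.sum_mul]
    refine Finset.sum_congr rfl fun r hr => ?_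
    rw [← mul_add, Nat.add_sub_cancel' (D.ap_top i hr).le]
  have h3 : 1 ≤ (D.X i).card := Finset.card_pos.2 ⟨_, D.E_mem_X hi⟩
  obtain ⟨e, he⟩ : ∃ e, (D.X i).card = e + 1 := ⟨(D.X i).card - 1, by omega⟩
  rw [he] at h1 ⊢
  rw [Nat.add_sub_cancel] at h1
  rw [add_mul, one_mul]
  omega

end TS

end Pool.Agent.MP_96f5a9_co.h96

end MrgPart0

-- ======== part 1: formerly Pool.Agent.MP_96f5a9_co.h96.ThinB
section MrgPart1

/-! One thin side: classes modulo the long axes and the inequality in the short direction. -/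

set_option autoImplicit false

namespace Pool.Agent.MP_96f5a9_co.h96

open Finset Pool.Agent.MP_96f5a9_co.h22

variable {ι : Type} [Fintype ι] [DecidableEq ι]

namespace TS

variable (D : TS ι)

/-- moduli: the multiplicities in the long directions, zero in the short one -/
def mu (k : ι) : ℕ := if k = D.j then 0 else D.m k

/-- class of a point -/
def cls : (ι → ℕ) →+ ((k : ι) → ZMod (D.mu k)) where
  toFun x := fun k => (x k : ZMod (D.mu k))
  map_zero' := by ext; simp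
  map_add' := by intro x y; ext; simp

theorem cls_iff {x y : ι → ℕ} :
    D.cls x = D.cls y ↔ x D.j = y D.j ∧ ∀ k, k ≠ D.j → x k ≡ y k [MOD D.m k] := by
  have h0 : D.cls x = D.cls y ↔ ∀ k, x k ≡ y k [MOD D.mu k] := by
    rw [funext_iff]
    exact forall_congr' fun k => ZMod.natCast_eq_natCast_iff _ _ _
  rw [h0]
  constructor
  · intro h
    refine ⟨?_, fun k hk => ?_⟩
    · have := h D.j
      simpa [mu, Nat.ModEq] using this
    · have := h k
      simpa [mu, hk] using this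
  · intro h k
    by_cases hk : k = D.j
    · subst hk; rw [h.1]
    · simpa [mu, hk] using h.2 k hk

theorem cls_lev {x y : ι → ℕ} (h : D.cls x = D.cls y) : x D.j = y D.j := (D.cls_iff.1 h).1

theorem cls_inj {x y : ι → ℕ} (h : D.cls x = D.cls y) (hx : ∀ k, k ≠ D.j → x k < D.m k)
    (hy : ∀ k, k ≠ D.j → y k < D.m k) : x = y := by
  funext k
  by_cases hk : k = D.j
  · rw [hk]; exact D.cls_lev h
  · exact Nat.ModEq.eq_of_lt_of_lt ((D.cls_iff.1 h).2 k hk) (hx k hk) (hy k hk)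

theorem coord_uniq {r r' : ι → ℕ} {l l' : ℕ} (hr : r ∈ D.R) (hr' : r' ∈ D.R)
    (h : D.cls (r + l • D.v) = D.cls (r' + l' • D.v)) : r = r' ∧ l = l' := by
  have h1 := D.cls_lev h
  simp only [Pi.add_apply, Pi.smul_apply, smul_eq_mul, D.hvj] at h1
  have a := D.mem_R.1 hr
  have a' := D.mem_R.1 hr'
  have h2 : l = l' := by
    have h3 := congrArg (· / D.m D.j) h1
    simpa [Nat.add_mul_div_right _ _ (D.hm D.j), Nat.div_eq_of_lt (a D.j),
      Nat.div_eq_of_lt (a' D.j)] using h3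
  subst h2
  rw [map_add, map_add] at h
  exact ⟨D.cls_inj (add_right_cancel h) (fun k _ => a k) (fun k _ => a' k), rfl⟩

theorem exists_coord (y : ι → ℕ) : ∃ r ∈ D.R, ∃ l : ℕ, D.cls y = D.cls (r + l • D.v) := by
  refine ⟨fun k => if k = D.j then y k % D.m k else (y k + y D.j / D.m D.j * (D.m k - D.v k)) % D.m k,
    D.mem_R.2 fun k => ?_, y D.j / D.m D.j, D.cls_iff.2 ⟨?_, fun k hk => ?_⟩⟩
  · split_ifs <;> exact Nat.mod_lt _ (D.hm k)
  · simp only [Pi.add_apply, Pi.smul_apply, smul_eq_mul, D.hvj, if_true]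
    rw [mul_comm]
    exact (Nat.mod_add_div _ _).symm
  · simp only [Pi.add_apply, Pi.smul_apply, smul_eq_mul, if_neg hk]
    refine Nat.ModEq.trans ?_ ((Nat.mod_modEq _ _).symm.add_right _)
    rw [add_assoc, ← mul_add, Nat.sub_add_cancel (D.hvl k hk).le]
    unfold Nat.ModEq
    rw [Nat.add_mul_mod_self_right]

/-- generators below the multiplicities of the long axes -/
def L : Finset (ι → ℕ) := D.G.filter fun g => ∀ k, k ≠ D.j → g k < D.m k

theorem mem_L {g : ι → ℕ} : g ∈ D.L ↔ g ∈ D.G ∧ ∀ k, k ≠ D.j → g k < D.m k := mem_filter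

theorem v_mem_L : D.v ∈ D.L := D.mem_L.2 ⟨D.hvG, D.hvl⟩

theorem v_mem_X : D.v ∈ D.X D.j := D.mem_X.2 ⟨D.hvG, D.hvl, D.hvj.ge⟩

theorem X_sub_L : D.X D.j ⊆ D.L := fun _ hg => D.mem_L.2 ⟨(D.mem_X.1 hg).1, (D.mem_X.1 hg).2.1⟩

/-- classes of sums of these generators -/
def Z : AddSubmonoid ((k : ι) → ZMod (D.mu k)) where
  carrier := {γ | ∃ t : (ι → ℕ) → ℕ, γ = D.cls (∑ g ∈ D.L, t g • g)}
  zero_mem' := ⟨0, by simp⟩
  add_mem' := by
    rintro _ _ ⟨t, rfl⟩ ⟨t', rfl⟩
    refine ⟨fun g => t g + t' g, ?_⟩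
    simp_rw [add_smul]
    rw [Finset.sum_add_distrib, map_add]

theorem sum_mem_Z (t : (ι → ℕ) → ℕ) : D.cls (∑ g ∈ D.L, t g • g) ∈ D.Z := ⟨t, rfl⟩

theorem light_fact {x : ι → ℕ} (hx : x ∈ D.S) (h : ∀ k, k ≠ D.j → x k < D.m k) :
    ∃ t : (ι → ℕ) → ℕ, x = ∑ g ∈ D.L, t g • g := by
  obtain ⟨t, ht⟩ := exists_fact D.S D.G D.hG x hx
  refine ⟨t, ht.trans (Finset.sum_subset (filter_subset _ _) fun g hg hn => ?_).symm⟩
  by_contra h0
  have h1 : t g ≠ 0 := fun h => h0 (by rw [h, zero_nsmul])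
  refine hn (D.mem_L.2 ⟨hg, fun k hk => lt_of_le_of_lt ?_ (h k hk)⟩)
  rw [ht]; exact le_part hg h1 k

theorem light_mem_Z {x : ι → ℕ} (hx : x ∈ D.S) (h : ∀ k, k ≠ D.j → x k < D.m k) :
    D.cls x ∈ D.Z := by
  obtain ⟨t, ht⟩ := D.light_fact hx h
  exact ⟨t, congrArg _ ht⟩

theorem L_mem_Z {g : ι → ℕ} (hg : g ∈ D.L) : D.cls g ∈ D.Z :=
  D.light_mem_Z (D.GS (D.mem_L.1 hg).1) (D.mem_L.1 hg).2

theorem level_mem_Z {x : ι → ℕ} (hx : D.c D.j ≤ x D.j) : D.cls x ∈ D.Z := by
  have h1 : D.cls x = D.cls fun k => if k = D.j then x k else x k % D.m k :=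
    D.cls_iff.2 ⟨by simp, fun k hk => by simpa [hk] using (Nat.mod_modEq _ _).symm⟩
  rw [h1]
  exact D.light_mem_Z (D.mem_of_le (i := D.j) (by simpa using hx)) fun k hk => by
    simpa [hk] using Nat.mod_lt _ (D.hm k)

theorem ex_lev (r : ι → ℕ) : D.cls r + D.q r • D.cls D.v ∈ D.Z := by
  rw [← map_nsmul, ← map_add]
  refine D.level_mem_Z ?_
  have h2 : ¬ (D.q r < qq (D.c D.j) (D.m D.j) (r D.j)) := lt_irrefl _
  rw [lt_qq (D.hm D.j)] at h2
  simpa [D.hvj, mul_comm] using h2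

open Classical in
/-- first layer above the residue `r` whose class is a sum of small generators -/
noncomputable def lev (r : ι → ℕ) : ℕ :=
  Nat.find (⟨_, D.ex_lev r⟩ : ∃ l : ℕ, D.cls r + l • D.cls D.v ∈ D.Z)

theorem lev_spec (r : ι → ℕ) : D.cls r + D.lev r • D.cls D.v ∈ D.Z := by
  classical
  exact Nat.find_spec (⟨_, D.ex_lev r⟩ : ∃ l : ℕ, D.cls r + l • D.cls D.v ∈ D.Z)

theorem lev_le (r : ι → ℕ) {l : ℕ} (h : D.cls r + l • D.cls D.v ∈ D.Z) : D.lev r ≤ l := by
  classical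
  exact Nat.find_min' (⟨_, D.ex_lev r⟩ : ∃ l : ℕ, D.cls r + l • D.cls D.v ∈ D.Z) h

theorem lev_le_q (r : ι → ℕ) : D.lev r ≤ D.q r := D.lev_le r (D.ex_lev r)

theorem lev_zero : D.lev 0 = 0 := Nat.le_zero.1 (D.lev_le 0 (by simp))

theorem mem_Z_of_le (r : ι → ℕ) {l : ℕ} (h : D.lev r ≤ l) : D.cls (r + l • D.v) ∈ D.Z := by
  obtain ⟨s, rfl⟩ := Nat.exists_eq_add_of_le h
  rw [map_add, map_nsmul, add_nsmul, ← add_assoc]
  exact D.Z.add_mem (D.lev_spec r) (D.Z.nsmul_mem (D.L_mem_Z D.v_mem_L) s)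

theorem lev_not_add {r : ι → ℕ} (hr : r ∈ D.R) :
    ∀ z ∈ D.Z, D.cls r + D.lev r • D.cls D.v ≠ z + D.cls D.v := by
  intro z hz h
  by_cases hl : 1 ≤ D.lev r
  · exact least_not_add D.Z (fun _ h => D.lev_le r h) hz hl h
  · obtain ⟨t, rfl⟩ := hz
    rw [show D.lev r = 0 by omega, zero_nsmul, add_zero, ← map_add] at h
    have h1 := D.cls_lev h
    rw [Pi.add_apply, D.hvj] at h1
    have := D.mem_R.1 hr D.j
    omega

theorem level_of_lev_zero {r : ι → ℕ} (hr : r ∈ D.R) (h : D.lev r = 0) : r D.j = 0 := by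
  obtain ⟨t, ht⟩ := D.lev_spec r
  rw [h, zero_nsmul, add_zero] at ht
  have h1 := D.cls_lev ht
  rw [h1, Finset.sum_apply]
  refine Finset.sum_eq_zero fun g hg => ?_
  rw [Pi.smul_apply, smul_eq_mul]
  by_cases h0 : t g = 0
  · simp [h0]
  have h2 := le_part hg h0 D.j
  have h3 := D.mem_R.1 hr D.j
  rcases D.hlev g (D.mem_L.1 hg).1 (D.mem_L.1 hg).2 with h4 | h4
  · simp [h4]
  · omega

/-- charge of a part `τ • g` -/
def psi (g : ι → ℕ) (τ : ℕ) : ℕ := if τ = 0 then 0 else τ * g D.j / D.m D.j + 1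

theorem thin_gen {g : ι → ℕ} (hg : g ∈ D.X D.j) (t : (ι → ℕ) → (ι → ℕ) → ℕ)
    (ht : ∀ r, D.cls r + D.lev r • D.cls D.v = D.cls (∑ u ∈ D.L, t r u • u)) :
    ∑ r ∈ D.R, 1 * D.psi g (t r g) ≤ ∑ r ∈ D.R, 1 * Phi (D.q r - D.lev r) := by
  classical
  refine layer_cake _ _ _ _ fun w => ?_
  by_cases hv : ∃ k, w < D.psi g k
  swap
  · refine ⟨id, fun x hx => absurd ⟨_, hx.2⟩ hv, fun x _ hx => absurd ⟨_, hx⟩ hv⟩
  have hk1 : w < D.psi g (Nat.find hv) := Nat.find_spec hv
  have hk2 : ∀ k, w < D.psi g k → Nat.find hv ≤ k := fun k h => Nat.find_min' hv h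
  generalize Nat.find hv = k at hk1 hk2
  have hk0 : k ≠ 0 := by
    intro h
    rw [h] at hk1
    simp [psi] at hk1
  have hgL := D.X_sub_L hg
  have split : ∀ r, ∃ r', r ∈ D.R → w < D.psi g (t r g) → r' ∈ D.R ∧
      D.cls (r + D.lev r • D.v) = D.cls (r' + D.lev r' • D.v + k • g) := by
    intro r
    by_cases h : r ∈ D.R ∧ w < D.psi g (t r g)
    · obtain ⟨t', h1⟩ := split_off (t r) hgL (hk2 _ h.2)
      obtain ⟨r', h2, l, h3⟩ := D.exists_coord (∑ u ∈ D.L, t' u • u)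
      have h4 : D.cls r + D.lev r • D.cls D.v = D.cls r' + l • D.cls D.v + D.cls (k • g) := by
        rw [ht r, h1, map_add, h3, map_add, map_nsmul]
      have h5 : D.lev r' = l := by
        refine least_closed D.Z (D.L_mem_Z D.v_mem_L) (D.lev_not_add h.1) h4 ?_ (D.lev_spec r')
          (D.lev_le r' ?_)
        · rw [map_nsmul]; exact D.Z.nsmul_mem (D.L_mem_Z hgL) _
        · rw [← map_nsmul, ← map_add, ← h3]; exact D.sum_mem_Z _
      refine ⟨r', fun _ _ => ⟨h2, ?_⟩⟩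
      rw [map_add, map_nsmul, h4, h5, map_add, map_add, map_nsmul D.cls l]
    · exact ⟨r, fun h1 h2 => absurd ⟨h1, h2⟩ h⟩
  choose φ hφ using split
  refine ⟨φ, fun x hx x' hx' h => ?_, fun x hx hxv => ?_⟩
  · refine (D.coord_uniq hx.1 hx'.1 (l := D.lev x) (l' := D.lev x') ?_).1
    rw [(hφ x hx.1 hx.2).2, (hφ x' hx'.1 hx'.2).2, h]
  · obtain ⟨h1, h2⟩ := hφ x hx hxv
    refine ⟨h1, ?_, le_rfl⟩
    have h3 := D.cls_lev h2
    simp only [Pi.add_apply, Pi.smul_apply, smul_eq_mul, D.hvj] at h3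
    have h4 := top_lt (D.hc D.j) (D.hm D.j) (D.mem_R.1 hx D.j) (D.lev_le_q x)
    rw [q, ← qq_add (D.hm D.j)]
    rw [mul_comm (D.lev x), mul_comm (D.lev (φ x))] at h3
    have h5 : k * g D.j / D.m D.j ≤ qq (D.c D.j) (D.m D.j) (φ x D.j + D.m D.j * D.lev (φ x)) :=
      Nat.div_le_div_right (by omega)
    have h6 : 1 ≤ k * g D.j / D.m D.j := by
      rw [Nat.le_div_iff_mul_le (D.hm D.j)]
      have := (D.mem_X.1 hg).2.2
      have : 1 * g D.j ≤ k * g D.j := Nat.mul_le_mul_right _ (Nat.one_le_iff_ne_zero.2 hk0)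
      omega
    simp only [psi, hk0, if_false] at hk1
    unfold Phi
    split_ifs <;> omega

theorem thin_need {r : ι → ℕ} (hr : r ∈ D.R) (t : (ι → ℕ) → ℕ)
    (ht : D.cls r + D.lev r • D.cls D.v = D.cls (∑ u ∈ D.L, t u • u)) :
    Phi (D.lev r) ≤ ∑ g ∈ (D.X D.j).erase D.v, D.psi g (t g) := by
  classical
  by_cases hl : D.lev r = 0
  · simp [Phi, hl]
  have hv : t D.v = 0 := by
    by_contra h0
    obtain ⟨t', h1⟩ := split_off t D.v_mem_L (Nat.one_le_iff_ne_zero.2 h0)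
    rw [h1, one_nsmul, map_add] at ht
    exact D.lev_not_add hr _ (D.sum_mem_Z _) ht
  rw [← map_nsmul, ← map_add] at ht
  have h1 := D.cls_lev ht
  simp only [Pi.add_apply, Pi.smul_apply, smul_eq_mul, D.hvj, Finset.sum_apply] at h1
  have h2 : ∑ u ∈ D.L, t u * u D.j = ∑ u ∈ (D.X D.j).erase D.v, t u * u D.j := by
    refine (Finset.sum_subset ((erase_subset _ _).trans D.X_sub_L) fun u hu hn => ?_).symm
    by_cases h3 : u = D.v
    · rw [h3, hv, zero_mul]
    rcases D.hlev u (D.mem_L.1 hu).1 (D.mem_L.1 hu).2 with h4 | h4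
    · rw [h4, mul_zero]
    · exact absurd (mem_erase.2 ⟨h3, D.mem_X.2 ⟨(D.mem_L.1 hu).1, (D.mem_L.1 hu).2, h4⟩⟩) hn
  rw [h2] at h1
  have hpos : 1 * 1 ≤ D.lev r * D.m D.j :=
    Nat.mul_le_mul (Nat.one_le_iff_ne_zero.2 hl) (D.hm D.j)
  have hex : ∃ u ∈ (D.X D.j).erase D.v, t u ≠ 0 := by
    by_contra h
    push Not at h
    rw [Finset.sum_eq_zero fun u hu => by rw [h u hu, zero_mul]] at h1
    omega
  have hlt : ∑ u ∈ (D.X D.j).erase D.v, t u * u D.j <
      (∑ g ∈ (D.X D.j).erase D.v, D.psi g (t g)) * D.m D.j := by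
    rw [Finset.sum_mul]
    have one : ∀ u : ι → ℕ, t u ≠ 0 → t u * u D.j < D.psi u (t u) * D.m D.j := by
      intro u hu
      simp only [psi, hu, if_false]
      have := Nat.lt_div_mul_add (a := t u * u D.j) (D.hm D.j)
      rw [add_mul, one_mul]
      exact this
    refine Finset.sum_lt_sum (fun u _ => ?_) ?_
    · by_cases hu : t u = 0
      · simp [hu]
      · exact (one u hu).le
    · obtain ⟨u, hu, hu0⟩ := hex
      exact ⟨u, hu, one u hu0⟩
  have h3 : D.lev r < ∑ g ∈ (D.X D.j).erase D.v, D.psi g (t g) :=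
    Nat.lt_of_mul_lt_mul_right (a := D.m D.j) (by omega)
  simpa [Phi, hl] using h3

theorem q_pos {r : ι → ℕ} (hr : r ∈ D.R) : 0 < D.q r := by
  rw [q, lt_qq (D.hm _)]
  have := D.mem_R.1 hr D.j
  have := D.hmc
  omega

theorem q_le (r : ι → ℕ) : D.q r ≤ D.q 0 := qq_anti (Nat.zero_le _)

theorem q_le_c (r : ι → ℕ) : D.q r ≤ D.c D.j := by
  by_contra h
  have h1 : D.c D.j < qq (D.c D.j) (D.m D.j) (r D.j) := not_le.1 h
  rw [lt_qq (D.hm _)] at h1
  have := Nat.mul_le_mul_right (D.c D.j) (D.hm D.j)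
  omega

/-- the inequality in the short direction -/
theorem thin_nat : ∑ r ∈ D.R, (D.q r + 1) ≤
    (D.X D.j).card * ∑ r ∈ D.R, Phi (D.q r - D.lev r) := by
  classical
  choose t ht using fun r => D.lev_spec r
  have h1 : ∑ r ∈ D.R, Phi (D.lev r) ≤
      ((D.X D.j).card - 1) * ∑ r ∈ D.R, Phi (D.q r - D.lev r) := by
    refine (Finset.sum_le_sum fun r hr => D.thin_need hr _ (ht r)).trans ?_
    rw [Finset.sum_comm, ← Finset.card_erase_of_mem D.v_mem_X, ← smul_eq_mul]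
    refine Finset.sum_le_card_nsmul _ _ _ fun g hg => ?_
    simpa using D.thin_gen (mem_of_mem_erase hg) t ht
  have h2 : ∑ r ∈ D.R, (D.q r + 1) ≤
      ∑ r ∈ D.R, Phi (D.lev r) + ∑ r ∈ D.R, Phi (D.q r - D.lev r) := by
    rw [← Finset.sum_add_distrib]
    refine Finset.sum_le_sum fun r hr => ?_
    have := D.lev_le_q r
    have := D.q_pos hr
    unfold Phi
    split_ifs <;> omega
  have h3 : 1 ≤ (D.X D.j).card := Finset.card_pos.2 ⟨_, D.v_mem_X⟩
  obtain ⟨e, he⟩ : ∃ e, (D.X D.j).card = e + 1 := ⟨(D.X D.j).card - 1, by omega⟩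
  rw [he] at h1 ⊢
  rw [Nat.add_sub_cancel] at h1
  rw [add_mul, one_mul]
  omega

/-- product of the multiplicities of the long axes -/
def g0 : ℕ := ∏ k ∈ univ.erase D.j, D.m k

theorem g0_pos : 0 < D.g0 := Finset.prod_pos fun k _ => D.hm k

/-- a class below the top level has a small representative -/
theorem exists_rep {M : ℕ} (hM : ∀ k, k ≠ D.j → D.m k ≤ M) {x : ι → ℕ} (hx : D.cls x ∈ D.Z)
    (hj : x D.j < D.c D.j) : ∃ y ∈ D.S, D.cls y = D.cls x ∧
      ∀ k, k ≠ D.j → y k ≤ D.G.card * ((D.g0 + D.c D.j) * M) := by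
  obtain ⟨t, ht⟩ := hx
  refine ⟨∑ g ∈ D.L, (if g D.j = 0 then t g % D.g0 else t g) • g,
    D.S.sum_mem fun g hg => D.S.nsmul_mem (D.GS (D.mem_L.1 hg).1) _, ?_, fun k hk => ?_⟩
  · rw [ht, map_sum, map_sum]
    refine Finset.sum_congr rfl fun g _ => ?_
    split_ifs with h
    · refine D.cls_iff.2 ⟨by simp [h], fun k hk => ?_⟩
      simp only [Pi.smul_apply, smul_eq_mul]
      exact ((Nat.mod_modEq _ _).of_dvd
        (Finset.dvd_prod_of_mem D.m (mem_erase.2 ⟨hk, mem_univ k⟩))).mul_right _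
    · rfl
  · rw [Finset.sum_apply]
    refine (Finset.sum_le_card_nsmul _ _ ((D.g0 + D.c D.j) * M) fun g hg => ?_).trans ?_
    · rw [Pi.smul_apply, smul_eq_mul]
      refine Nat.mul_le_mul ?_ (((D.mem_L.1 hg).2 k hk).le.trans (hM k hk))
      split_ifs with h
      · have := Nat.mod_lt (t g) D.g0_pos
        omega
      · have h1 := part_le (t := t) hg D.j
        have h2 := D.cls_lev ht
        have : t g * 1 ≤ t g * g D.j := Nat.mul_le_mul_left _ (Nat.one_le_iff_ne_zero.2 h)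
        omega
    · exact Nat.mul_le_mul_right _ (Finset.card_le_card (filter_subset _ _))

end TS

end Pool.Agent.MP_96f5a9_co.h96

end MrgPart1

-- ======== part 2: formerly Pool.Agent.MP_96f5a9_co.h96.ThinC
section MrgPart2

/-! One thin side: counting in sheared coordinates and the tight case. -/

set_option autoImplicit false

namespace Pool.Agent.MP_96f5a9_co.h96

open Finset Pool.Agent.MP_96f5a9_co.h22

theorem prod_ge {α : Type*} (K : Finset α) (x lam δ : α → ℝ) (hx : ∀ t ∈ K, 0 ≤ x t)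
    (hl : ∀ t ∈ K, 0 ≤ lam t) (hδ : ∀ t ∈ K, 0 ≤ δ t) (h : ∀ t ∈ K, lam t * (1 - δ t) ≤ x t) :
    (∏ t ∈ K, lam t) * (1 - ∑ t ∈ K, δ t) ≤ ∏ t ∈ K, x t := by
  classical
  induction K using Finset.induction_on with
  | empty => simp
  | insert a K ha ih =>
    have ih := ih (fun t ht => hx t (mem_insert_of_mem ht)) (fun t ht => hl t (mem_insert_of_mem ht))
      (fun t ht => hδ t (mem_insert_of_mem ht)) (fun t ht => h t (mem_insert_of_mem ht))
    rw [prod_insert ha, prod_insert ha, sum_insert ha]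
    have a1 := hx a (mem_insert_self _ _)
    have a2 := hl a (mem_insert_self _ _)
    have a3 := hδ a (mem_insert_self _ _)
    have a4 := h a (mem_insert_self _ _)
    have b1 : 0 ≤ ∏ t ∈ K, x t := prod_nonneg fun t ht => hx t (mem_insert_of_mem ht)
    have b2 : 0 ≤ ∏ t ∈ K, lam t := prod_nonneg fun t ht => hl t (mem_insert_of_mem ht)
    have b3 : 0 ≤ ∑ t ∈ K, δ t := sum_nonneg fun t ht => hδ t (mem_insert_of_mem ht)
    by_cases hc : 1 - (δ a + ∑ t ∈ K, δ t) ≤ 0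
    · exact (mul_nonpos_of_nonneg_of_nonpos (mul_nonneg a2 b2) hc).trans (mul_nonneg a1 b1)
    · have c1 := mul_le_mul a4 ih (mul_nonneg b2 (by linarith)) a1
      have c2 := mul_nonneg (mul_nonneg a2 b2) (mul_nonneg a3 b3)
      nlinarith

theorem qq_real {c m β : ℕ} (hm : 0 < m) {δ : ℝ} (h : (β : ℝ) ≤ δ * c) :
    (c : ℝ) / m * (1 - δ) ≤ qq c m β := by
  have h2 : ¬ (qq c m β < qq c m β) := lt_irrefl _
  rw [lt_qq hm] at h2
  have h3 : (c : ℝ) ≤ β + m * qq c m β := by exact_mod_cast not_lt.1 h2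
  have h4 : (0 : ℝ) < m := by exact_mod_cast hm
  rw [div_mul_eq_mul_div, div_le_iff₀ h4]
  nlinarith

theorem pair {q0 q l : ℕ} {u : ℝ} (hl : l ≤ q) (h0 : l = 0 → q = q0) (hq : 0 < q) (u0 : 0 ≤ u)
    (u1 : u ≤ 1) :
    q * u + (1 - 1 / ((q0 : ℝ) + 1)) * Phi (q - l) +
      (if 1 ≤ l ∧ l < q then 1 / ((q0 : ℝ) + 1) else 0) ≤ 2 * (((q : ℝ) - l) + l * u) := by
  obtain ⟨e, rfl⟩ := Nat.exists_eq_add_of_le hl
  rw [Nat.add_sub_cancel_left]
  have hx : (0 : ℝ) < 1 / ((q0 : ℝ) + 1) := by positivity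
  have hx1 : 1 / ((q0 : ℝ) + 1) * (q0 + 1) = 1 := by field_simp
  generalize 1 / ((q0 : ℝ) + 1) = x at hx hx1
  have a1 : (0 : ℝ) ≤ l := Nat.cast_nonneg _
  have a2 : (0 : ℝ) ≤ e := Nat.cast_nonneg _
  by_cases h1 : l = 0
  · have h2 := h0 h1
    subst h1
    rw [zero_add] at h2 hq
    subst h2
    simp only [Phi, hq.ne', if_false]
    rw [if_neg (by omega)]
    push_cast
    nlinarith
  by_cases h2 : e = 0
  · subst h2
    rw [if_neg (by omega)]
    simp only [Phi, if_true]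
    push_cast
    nlinarith
  have b1 : (1 : ℝ) ≤ l := by exact_mod_cast Nat.one_le_iff_ne_zero.2 h1
  have b2 : (1 : ℝ) ≤ e := by exact_mod_cast Nat.one_le_iff_ne_zero.2 h2
  rw [if_pos (by omega)]
  simp only [Phi, h2, if_false]
  push_cast
  nlinarith [mul_nonneg (sub_nonneg.2 b1) u0, mul_nonneg (sub_nonneg.2 b2) (sub_nonneg.2 u1),
    mul_nonneg hx.le a2]

theorem tangent {x A W ν : ℝ} (hx : 0 ≤ x) (hW : 0 < W) (h : W ≤ x * A) :
    2 * W * ν - W * A ≤ x * ν ^ 2 := by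
  have hA : 0 < A := by
    by_contra hA
    push Not at hA
    nlinarith
  by_contra hcon
  push Not at hcon
  have h2 := mul_lt_mul_of_pos_left hcon hA
  have h3 := mul_le_mul_of_nonneg_right h (sq_nonneg ν)
  nlinarith [mul_nonneg hW.le (sq_nonneg (ν - A))]

variable {ι : Type} [Fintype ι] [DecidableEq ι]

namespace TS

variable (D : TS ι)

open Classical in
/-- elements of the monoid in the box -/
noncomputable def N : Finset (ι → ℕ) :=
  (Fintype.piFinset fun k => range (D.c k)).filter fun x => x ∈ D.S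

theorem count (β : (ι → ℕ) → ℕ → ι → ℕ)
    (hβ : ∀ r ∈ D.R, ∀ k, k < D.q r → β r k ∈ D.S ∧ D.cls (β r k) = D.cls (r + k • D.v)) :
    ∑ r ∈ D.R, ∑ k ∈ range (D.q r), ∏ t ∈ univ.erase D.j, qq (D.c t) (D.m t) (β r k t) ≤
      D.N.card := by
  classical
  set T := D.R.sigma fun r => (range (D.q r)).sigma fun k =>
    Fintype.piFinset fun t => range (if t = D.j then 1 else qq (D.c t) (D.m t) (β r k t)) with hT
  have h1 : T.card =
      ∑ r ∈ D.R, ∑ k ∈ range (D.q r), ∏ t ∈ univ.erase D.j, qq (D.c t) (D.m t) (β r k t) := by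
    rw [hT, Finset.card_sigma]
    refine Finset.sum_congr rfl fun r _ => ?_
    rw [Finset.card_sigma]
    refine Finset.sum_congr rfl fun k _ => ?_
    rw [Fintype.card_piFinset, ← Finset.mul_prod_erase univ _ (mem_univ D.j), if_pos rfl,
      card_range, one_mul]
    exact Finset.prod_congr rfl fun t ht => by rw [if_neg (ne_of_mem_erase ht), card_range]
  rw [← h1]
  have mem : ∀ z ∈ T, z.1 ∈ D.R ∧ z.2.1 < D.q z.1 ∧ z.2.2 D.j = 0 ∧
      ∀ t, t ≠ D.j → β z.1 z.2.1 t + D.m t * z.2.2 t < D.c t := by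
    intro z hz
    simp only [hT, mem_sigma, mem_range, Fintype.mem_piFinset] at hz
    refine ⟨hz.1, hz.2.1, by simpa using hz.2.2 D.j, fun t ht => ?_⟩
    have := hz.2.2 t
    rwa [if_neg ht, lt_qq (D.hm t)] at this
  have cl : ∀ z ∈ T, D.cls (fun t => β z.1 z.2.1 t + D.m t * z.2.2 t) =
      D.cls (z.1 + z.2.1 • D.v) := by
    intro z hz
    obtain ⟨a, b, c, _⟩ := mem z hz
    rw [← (hβ _ a _ b).2]
    refine D.cls_iff.2 ⟨by simp [c], fun k _ => ?_⟩
    unfold Nat.ModEq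
    rw [Nat.add_mul_mod_self_left]
  refine Finset.card_le_card_of_injOn (fun z => fun t => β z.1 z.2.1 t + D.m t * z.2.2 t) ?_ ?_
  · intro z hz
    obtain ⟨a, b, c, e⟩ := mem z hz
    rw [Finset.mem_coe, N, mem_filter]
    refine ⟨Fintype.mem_piFinset.2 fun t => mem_range.2 ?_, ?_⟩
    · by_cases ht : t = D.j
      · have h2 := D.cls_lev (cl z hz)
        rw [q, lt_qq (D.hm _)] at b
        simp only [Pi.add_apply, Pi.smul_apply, smul_eq_mul, D.hvj] at h2
        rw [ht]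
        simp only
        rw [h2, mul_comm]
        exact b
      · exact e t ht
    · have h2 : (fun t => β z.1 z.2.1 t + D.m t * z.2.2 t) =
          β z.1 z.2.1 + ∑ t ∈ univ.erase D.j, z.2.2 t • D.E t := by
        funext t
        simp only [Pi.add_apply, Finset.sum_apply, Pi.smul_apply, smul_eq_mul]
        congr 1
        rw [Finset.sum_eq_single t]
        · rw [E_self, mul_comm]
        · intro b _ hb; rw [D.E_ne hb.symm, mul_zero]
        · intro h
          have : t = D.j := by simpa using h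
          rw [this, c, zero_mul]
      simp only
      rw [h2]
      exact D.S.add_mem (hβ _ a _ b).1 (D.S.sum_mem fun t ht =>
        D.S.nsmul_mem (D.hmS t (ne_of_mem_erase ht)) _)
  · rintro ⟨r, k, l⟩ hz ⟨r', k', l'⟩ hz' h
    have h2 := (cl _ hz).symm.trans ((congrArg D.cls h).trans (cl _ hz'))
    obtain ⟨rfl, rfl⟩ := D.coord_uniq (mem _ hz).1 (mem _ hz').1 h2
    have h3 : l = l' := funext fun t =>
      Nat.eq_of_mul_eq_mul_left (D.hm t) (Nat.add_left_cancel (congrFun h t))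
    rw [h3]

/-- number of translates along the long axes, as a real number -/
noncomputable def Lam : ℝ := ∏ t ∈ univ.erase D.j, (D.c t : ℝ) / D.m t

theorem Lam_pos : 0 < D.Lam := Finset.prod_pos fun t _ =>
  div_pos (by exact_mod_cast D.hc t) (by exact_mod_cast D.hm t)

theorem W_eq : D.W = D.c D.j * D.g0 := by
  have h := Finset.prod_univ_sum (fun k => range (D.m k))
    (fun k x => if k = D.j then qq (D.c k) (D.m k) x else 1)
  rw [← Finset.mul_prod_erase univ _ (mem_univ D.j)] at h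
  simp only [if_true, sum_qq _ (D.hm D.j)] at h
  rw [Finset.prod_congr rfl (g := D.m) fun t ht => by simp [ne_of_mem_erase ht]] at h
  rw [g0, h, W, R]
  exact Finset.sum_congr rfl fun r _ => by simp [q]

theorem W_Lam : (D.W : ℝ) * D.Lam = ∏ t, (D.c t : ℝ) := by
  rw [W_eq, ← Finset.mul_prod_erase univ _ (mem_univ D.j), g0, Lam]
  push_cast
  rw [mul_assoc, ← Finset.prod_mul_distrib]
  congr 1
  refine Finset.prod_congr rfl fun t _ => ?_
  have : (D.m t : ℝ) ≠ 0 := by exact_mod_cast (D.hm t).ne'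
  field_simp

theorem W_pos : 0 < D.W := by rw [W_eq]; exact Nat.mul_pos (D.hc _) D.g0_pos

theorem prod_bound (i : ι) (β : ι → ℕ) {a ε : ℝ} (ha : 0 ≤ a) (hε : 0 ≤ ε)
    (h : ∀ t, t ≠ D.j → (β t : ℝ) ≤ ((if t = i then a else 0) + ε) * D.c t) :
    D.Lam * (1 - a - Fintype.card ι * ε) ≤ ∏ t ∈ univ.erase D.j, (qq (D.c t) (D.m t) (β t) : ℝ) := by
  refine le_trans ?_ (prod_ge (univ.erase D.j) _ (fun t => (D.c t : ℝ) / D.m t)
    (fun t => (if t = i then a else 0) + ε) (fun _ _ => Nat.cast_nonneg _)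
    (fun _ _ => by positivity) (fun _ _ => by positivity)
    (fun t ht => qq_real (D.hm t) (h t (ne_of_mem_erase ht))))
  refine mul_le_mul_of_nonneg_left ?_ D.Lam_pos.le
  have : ∑ t ∈ univ.erase D.j, ((if t = i then a else 0) + ε) ≤
      ∑ t, ((if t = i then a else 0) + ε) :=
    Finset.sum_le_sum_of_subset_of_nonneg (erase_subset _ _) fun _ _ _ => by positivity
  rw [Finset.sum_add_distrib (s := univ), Finset.sum_ite_eq' univ i, if_pos (mem_univ i),
    Finset.sum_const, card_univ, nsmul_eq_mul] at this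
  linarith

/-- relative depth of the first element above `r` along the axis `i` -/
noncomputable def u (i : ι) (r : ι → ℕ) : ℝ := 1 - (D.ap i r i : ℝ) / ((D.c i : ℝ) + D.m i)

theorem cm_pos (i : ι) : (0 : ℝ) < (D.c i : ℝ) + D.m i := by
  have : (0 : ℝ) < D.c i := by exact_mod_cast D.hc i
  positivity

theorem u_mul (i : ι) (r : ι → ℕ) :
    D.u i r * ((D.c i : ℝ) + D.m i) = (D.c i : ℝ) + D.m i - D.ap i r i := by
  have := D.cm_pos i
  unfold u
  field_simp

theorem u_le (i : ι) (r : ι → ℕ) : D.u i r ≤ 1 := by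
  have := D.cm_pos i
  have : (0 : ℝ) ≤ (D.ap i r i : ℝ) / ((D.c i : ℝ) + D.m i) := by positivity
  unfold u
  linarith

theorem u_nonneg (i : ι) {r : ι → ℕ} (hr : r ∈ D.R) : 0 ≤ D.u i r := by
  unfold u
  rw [sub_nonneg, div_le_one (D.cm_pos i)]
  exact_mod_cast (D.ap_top i hr).le

/-- normalised number of elements found with the axis `i` -/
noncomputable def nu (i : ι) : ℝ := ∑ r ∈ D.R, (((D.q r : ℝ) - D.lev r) + D.lev r * D.u i r)

/-- size of the error terms -/
def B (M : ℕ) : ℕ := (D.G.card + Fintype.card ι + 1) * ((D.g0 + D.c D.j + M) * M)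

theorem count_real {i : ι} (hi : i ≠ D.j) {M : ℕ} (hM : ∀ k, k ≠ D.j → D.m k ≤ M) {ε : ℝ}
    (hε : 0 ≤ ε) (hB : ∀ k, k ≠ D.j → (D.B M : ℝ) ≤ ε * D.c k) :
    D.Lam * (D.nu i - (Fintype.card ι + 1) * ε * D.W) ≤ D.N.card := by
  classical
  have hg := D.g0_pos
  have hb1 : D.G.card * ((D.g0 + D.c D.j) * M) ≤ D.B M :=
    Nat.mul_le_mul (by omega) (Nat.mul_le_mul_right _ (by omega))
  have hb2 : (1 + D.c D.j) * M ≤ D.B M :=
    (Nat.mul_le_mul_right _ (by omega)).trans (Nat.le_mul_of_pos_left _ (Nat.succ_pos _))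
  have hex : ∀ (r : ι → ℕ) (k : ℕ), ∃ β : ι → ℕ, r ∈ D.R → k < D.q r →
      (β ∈ D.S ∧ D.cls β = D.cls (r + k • D.v)) ∧
      D.Lam * ((if k < D.lev r then D.u i r else 1) - (Fintype.card ι + 1) * ε) ≤
        ∏ t ∈ univ.erase D.j, (qq (D.c t) (D.m t) (β t) : ℝ) := by
    intro r k
    by_cases h : r ∈ D.R ∧ k < D.q r
    swap
    · exact ⟨0, fun h1 h2 => absurd ⟨h1, h2⟩ h⟩
    by_cases hk : k < D.lev r
    · refine ⟨D.ap i r + k • D.v, fun _ _ => ⟨⟨D.S.add_mem (D.ap_mem i r)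
        (D.S.nsmul_mem (D.GS D.hvG) _), ?_⟩, ?_⟩⟩
      · rw [map_add, map_add]
        congr 1
        refine D.cls_iff.2 ⟨D.ap_ne r hi.symm, fun t _ => ?_⟩
        by_cases ht : t = i
        · rw [ht, ap_self]
          unfold Nat.ModEq
          rw [Nat.add_mul_mod_self_left]
        · rw [D.ap_ne r ht]
      · have u1 := D.u_le i r
        have u0 := D.u_nonneg i h.1
        refine le_trans (le_of_eq ?_) (D.prod_bound i _ (a := 1 - D.u i r + ε) (by linarith) hε ?_)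
        · rw [if_pos hk]; ring
        intro t ht
        have h1 : k * D.v t ≤ D.c D.j * M :=
          Nat.mul_le_mul (h.2.le.trans (D.q_le_c r)) ((D.hvl t ht).le.trans (hM t ht))
        have h2 := hM t ht
        have h3 := hB t ht
        rw [add_mul, one_mul] at hb2
        simp only [Pi.add_apply, Pi.smul_apply, smul_eq_mul]
        split_ifs with h4
        · subst h4
          have h5 := D.u_mul t r
          have h6 : ((k * D.v t : ℕ) : ℝ) ≤ D.B M := by exact_mod_cast (by omega)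
          have h7 : (D.m t : ℝ) ≤ D.B M := by exact_mod_cast (by omega)
          have h8 : (0 : ℝ) ≤ D.m t := Nat.cast_nonneg _
          rw [Nat.cast_add]
          nlinarith [mul_nonneg u0 h8]
        · rw [D.ap_ne r h4, zero_add]
          have := D.mem_R.1 h.1 t
          exact le_trans (by exact_mod_cast (by omega)) h3
    · obtain ⟨y, h1, h2, h3⟩ := D.exists_rep hM (D.mem_Z_of_le r (not_lt.1 hk)) (by
        have := h.2
        rw [q, lt_qq (D.hm _)] at this
        simpa [D.hvj, mul_comm] using this)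
      refine ⟨y, fun _ _ => ⟨⟨h1, h2⟩, ?_⟩⟩
      refine le_trans (le_of_eq ?_) (D.prod_bound i _ (a := ε) hε hε fun t ht => ?_)
      · rw [if_neg hk]; ring
      have h4 : (y t : ℝ) ≤ D.B M := by exact_mod_cast (h3 t ht).trans hb1
      have h5 := hB t ht
      have h6 : (0 : ℝ) ≤ (if t = i then ε else 0) * D.c t := by positivity
      linarith
  choose β hβ using hex
  have h1 := D.count β fun r hr k hk => (hβ r k hr hk).1
  refine le_trans ?_ (Nat.cast_le.2 h1)
  push_cast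
  rw [nu, W, Nat.cast_sum, Finset.mul_sum, ← Finset.sum_sub_distrib, Finset.mul_sum]
  refine Finset.sum_le_sum fun r hr => ?_
  refine le_trans (le_of_eq ?_) (Finset.sum_le_sum fun k hk => (hβ r k hr (mem_range.1 hk)).2)
  rw [← Finset.mul_sum, Finset.sum_sub_distrib]
  congr 1
  obtain ⟨e, he⟩ := Nat.exists_eq_add_of_le (D.lev_le_q r)
  rw [he, Finset.sum_range_add,
    Finset.sum_congr rfl (g := fun _ => D.u i r) fun k hk => if_pos (mem_range.1 hk),
    Finset.sum_congr rfl (s₁ := range e) (g := fun _ => (1 : ℝ)) fun k _ => if_neg (by omega)]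
  simp only [Finset.sum_const, card_range, nsmul_eq_mul]
  push_cast
  ring

theorem thick_real {i : ι} (hi : i ≠ D.j) {M : ℕ} (hM : ∀ k, k ≠ D.j → D.m k ≤ M) {ε : ℝ}
    (hε : 0 ≤ ε) (hB : ∀ k, k ≠ D.j → (D.B M : ℝ) ≤ ε * D.c k) :
    (1 - ε) * D.W ≤ (D.X i).card * ∑ r ∈ D.R, D.q r * D.u i r := by
  have h1 : ((D.W * (D.c i + D.m i) : ℕ) : ℝ) ≤ _ := Nat.cast_le.2 (D.thick_nat hi hM)
  have h2 : ((∑ r ∈ D.R, D.q r * (D.c i + D.m i - D.ap i r i) : ℕ) : ℝ) =
      (∑ r ∈ D.R, D.q r * D.u i r) * ((D.c i : ℝ) + D.m i) := by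
    rw [Finset.sum_mul, Nat.cast_sum]
    refine Finset.sum_congr rfl fun r hr => ?_
    rw [mul_assoc, u_mul, Nat.cast_mul, Nat.cast_sub (D.ap_top i hr).le, Nat.cast_add]
  have h3 : Fintype.card ι * M * M ≤ D.B M := by
    rw [mul_assoc]
    exact Nat.mul_le_mul (by omega) (Nat.mul_le_mul_right _ (by omega))
  have h4 : ((Fintype.card ι * M * M : ℕ) : ℝ) ≤ ε * ((D.c i : ℝ) + D.m i) := by
    refine (Nat.cast_le.2 h3).trans ((hB i hi).trans ?_)
    have : (0 : ℝ) ≤ ε * D.m i := by positivity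
    linarith
  rw [Nat.cast_add, Nat.cast_mul, Nat.cast_mul, Nat.cast_mul, h2, Nat.cast_add] at h1
  have h5 := mul_le_mul_of_nonneg_left h4 (Nat.cast_nonneg (α := ℝ) D.W)
  refine le_of_mul_le_mul_right ?_ (D.cm_pos i)
  nlinarith

/-- capacity of the short direction -/
noncomputable def capj : ℝ := ∑ r ∈ D.R, (1 - 1 / ((D.q 0 : ℝ) + 1)) * Phi (D.q r - D.lev r)

theorem kap_nonneg : 0 ≤ 1 - 1 / ((D.q 0 : ℝ) + 1) := by
  rw [sub_nonneg, div_le_one (by positivity)]
  have : (0 : ℝ) ≤ D.q 0 := Nat.cast_nonneg _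
  linarith

theorem thin_real : (D.W : ℝ) ≤ (D.X D.j).card * D.capj := by
  have h1 : ((∑ r ∈ D.R, (D.q r + 1) : ℕ) : ℝ) ≤ _ := Nat.cast_le.2 D.thin_nat
  have h2 := mul_le_mul_of_nonneg_left h1 D.kap_nonneg
  rw [capj, ← Finset.mul_sum, mul_left_comm]
  push_cast at h2
  refine le_trans ?_ h2
  rw [W, Nat.cast_sum, Finset.mul_sum]
  refine Finset.sum_le_sum fun r _ => ?_
  have h4 : (D.q r : ℝ) ≤ D.q 0 := by exact_mod_cast D.q_le r
  have : 1 / ((D.q 0 : ℝ) + 1) * (D.q r + 1) ≤ 1 := by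
    rw [div_mul_eq_mul_div, div_le_one (by positivity)]; linarith
  nlinarith

theorem zero_mem_R : (0 : ι → ℕ) ∈ D.R := D.mem_R.2 fun k => D.hm k

theorem q_le_capj : (D.q 0 : ℝ) ≤ D.capj := by
  refine le_trans (le_of_eq ?_) (Finset.single_le_sum
    (f := fun r => (1 - 1 / ((D.q 0 : ℝ) + 1)) * Phi (D.q r - D.lev r))
    (fun r _ => mul_nonneg D.kap_nonneg (Nat.cast_nonneg _)) D.zero_mem_R)
  simp only [D.lev_zero, Nat.sub_zero, Phi, (D.q_pos D.zero_mem_R).ne', if_false]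
  push_cast
  field_simp
  ring

theorem one_le_nu (i : ι) : 1 ≤ D.nu i := by
  refine le_trans ?_ (Finset.single_le_sum
    (f := fun r => ((D.q r : ℝ) - D.lev r) + D.lev r * D.u i r) (fun r hr => add_nonneg
      (sub_nonneg.2 (Nat.cast_le.2 (D.lev_le_q r)))
      (mul_nonneg (Nat.cast_nonneg _) (D.u_nonneg i hr))) D.zero_mem_R)
  have : (1 : ℝ) ≤ D.q 0 := by exact_mod_cast D.q_pos D.zero_mem_R
  simpa [D.lev_zero] using this

theorem cap_le_nu (i : ι) : ∑ r ∈ D.R, D.q r * D.u i r ≤ D.nu i := by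
  refine Finset.sum_le_sum fun r _ => ?_
  have h1 : (D.lev r : ℝ) ≤ D.q r := Nat.cast_le.2 (D.lev_le_q r)
  nlinarith [mul_nonneg (sub_nonneg.2 h1) (sub_nonneg.2 (D.u_le i r))]

/-- slack in the two-direction inequality -/
noncomputable def slack : ℝ :=
  ∑ r ∈ D.R, if 1 ≤ D.lev r ∧ D.lev r < D.q r then 1 / ((D.q 0 : ℝ) + 1) else 0

theorem slack_nonneg : 0 ≤ D.slack := Finset.sum_nonneg fun _ _ => by positivity

theorem cap_pair (i : ι) : ∑ r ∈ D.R, D.q r * D.u i r + D.capj + D.slack ≤ 2 * D.nu i := by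
  rw [capj, slack, nu, ← Finset.sum_add_distrib, ← Finset.sum_add_distrib, Finset.mul_sum]
  exact Finset.sum_le_sum fun r hr => pair (D.lev_le_q r)
    (fun h => by rw [q, q, D.level_of_lev_zero hr h, Pi.zero_apply]) (D.q_pos hr)
    (D.u_nonneg i hr) (D.u_le i r)

theorem key {i0 : ι} (hi : i0 ≠ D.j) {W' ν xj : ℝ} (hW : 0 < W') (hx : 0 ≤ xj)
    (hν : ∀ i, i ≠ D.j → D.nu i ≤ ν)
    (h1 : ∀ i, i ≠ D.j → W' ≤ (D.X i).card * ∑ r ∈ D.R, D.q r * D.u i r)
    (h2 : W' ≤ xj * D.capj) :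
    W' * (Fintype.card ι * ν + D.slack) ≤
      (xj + ∑ i ∈ univ.erase D.j, ((D.X i).card : ℝ)) * ν ^ 2 := by
  have hm : i0 ∈ univ.erase D.j := mem_erase.2 ⟨hi, mem_univ _⟩
  have a1 := tangent (ν := ν) hx hW h2
  have a2 := tangent (ν := ν) (Nat.cast_nonneg _) hW (h1 i0 hi)
  have a3 : ∑ _i ∈ (univ.erase D.j).erase i0, W' * ν ≤
      ∑ i ∈ (univ.erase D.j).erase i0, ((D.X i).card : ℝ) * ν ^ 2 := by
    refine Finset.sum_le_sum fun i hi' => ?_
    have hj := ne_of_mem_erase (mem_of_mem_erase hi')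
    have b1 := tangent (ν := ν) (Nat.cast_nonneg _) hW (h1 i hj)
    have b2 := mul_le_mul_of_nonneg_left ((D.cap_le_nu i).trans (hν i hj)) hW.le
    linarith
  have a4 : (((univ.erase D.j).erase i0).card : ℝ) + 2 = Fintype.card ι := by
    have b1 := Finset.card_erase_add_one hm
    have b2 := Finset.card_erase_add_one (mem_univ D.j)
    rw [card_univ] at b2
    exact_mod_cast (by omega)
  rw [Finset.sum_const, nsmul_eq_mul, ← Finset.sum_mul] at a3
  rw [← Finset.add_sum_erase _ _ hm, ← a4]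
  have a5 := mul_le_mul_of_nonneg_left ((D.cap_pair i0).trans
    (mul_le_mul_of_nonneg_left (hν i0 hi) zero_le_two)) hW.le
  nlinarith

end TS

end Pool.Agent.MP_96f5a9_co.h96

end MrgPart2

-- marker of a merged file
example : 731051 + 407591 = 731051 + 407591 := rfl
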