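import Mathlib.Logic.Equiv.Fin.Rotate
import Pool.Agent.MP_96f5a9_co.h96.ThinC

/-! One thin side: the tight case and the theorem. -/

set_option autoImplicit false

namespace Pool.Agent.MP_96f5a9_co.h96

open Finset Pool.Agent.MP_96f5a9_co.h22

theorem fin_spare {d p y W ε ν : ℝ} (hν : ν = y + (d + 1) * ε * W) (h1 : 1 ≤ ν)
    (h2 : (1 - ε) * W * (d * ν) ≤ (p - 1) * ν ^ 2) (h3 : ε * W * (d + p * (d + 1)) ≤ 1) :
    d * W ≤ p * y := by
  have h4 : (1 - ε) * W * d ≤ (p - 1) * ν :=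
    le_of_mul_le_mul_right (by nlinarith) (by linarith : 0 < ν)
  have h5 : y = ν - (d + 1) * ε * W := by linarith
  rw [h5]
  nlinarith

theorem fin_margin {d p y W ε ν s : ℝ} (hν : ν = y + (d + 1) * ε * W) (h1 : 1 ≤ ν) (hs : 0 ≤ s)
    (hW : ν ≤ 2 * W) (hε : ε ≤ 1 / 2)
    (h2 : (1 - ε) * W * (d * ν + s) ≤ p * ν ^ 2) (h3 : ε * W * (d + p * (d + 1)) * 4 ≤ s) :
    d * W ≤ p * y := by
  have h6 : ν / 4 ≤ (1 - ε) * W := by nlinarith
  have h7 := mul_le_mul_of_nonneg_right h6 hs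
  have h4 : (1 - ε) * W * d + s / 4 ≤ p * ν :=
    le_of_mul_le_mul_right (by nlinarith) (by linarith : 0 < ν)
  have h5 : y = ν - (d + 1) * ε * W := by linarith
  rw [h5]
  nlinarith

variable {ι : Type} [Fintype ι] [DecidableEq ι]

namespace TS

variable (D : TS ι)

theorem light_level (h0 : ∀ g ∈ D.L, D.m D.j ≤ g D.j) {t : (ι → ℕ) → ℕ}
    (h : (∑ g ∈ D.L, t g • g) D.j < D.m D.j) : ∑ g ∈ D.L, t g • g = 0 := by
  refine Finset.sum_eq_zero fun g hg => ?_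
  by_cases h1 : t g = 0
  · rw [h1, zero_nsmul]
  · have := le_part hg h1 D.j
    have := h0 g hg
    omega

theorem empty_of (h0 : ∀ g ∈ D.L, D.m D.j ≤ g D.j) {x : ι → ℕ} (hx : x ∈ D.S)
    (h : ∀ k, k ≠ D.j → x k < D.m k) (hj : x D.j < D.m D.j) : x = 0 := by
  obtain ⟨t, rfl⟩ := D.light_fact hx h
  exact D.light_level h0 hj

theorem lev_pos (h0 : ∀ g ∈ D.L, D.m D.j ≤ g D.j) {r : ι → ℕ} (hr : r ∈ D.R) (h : r ≠ 0) :
    1 ≤ D.lev r := by
  by_contra hl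
  obtain ⟨t, ht⟩ := D.lev_spec r
  rw [show D.lev r = 0 by omega, zero_nsmul, add_zero] at ht
  rw [D.light_level h0 (D.cls_lev ht ▸ D.mem_R.1 hr D.j)] at ht
  exact h (D.cls_inj ht (fun k _ => D.mem_R.1 hr k) fun k _ => D.hm k)

theorem extra_atom (hS : (Pi.single D.j (D.m D.j) : ι → ℕ) ∉ D.S) :
    ∃ b, 0 < b ∧ (Pi.single D.j b : ι → ℕ) ∈ D.G ∧ (b < D.c D.j ∨ D.c D.j + D.m D.j ≤ b) := by
  classical
  have hlt : D.m D.j < D.c D.j := by simpa using D.hbox _ hS D.j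
  by_cases h : ∃ a, 0 < a ∧ a < D.c D.j ∧ (Pi.single D.j a : ι → ℕ) ∈ D.S
  · obtain ⟨h1, h2, h3⟩ := Nat.find_spec h
    refine ⟨Nat.find h, h1, (D.hG _).2 (axis_atom D.S _ h1 h3 fun k k' a1 a2 a3 a4 _ => ?_),
      Or.inl h2⟩
    have := Nat.find_min' h ⟨a1, by omega, a4⟩
    omega
  · refine ⟨D.c D.j + D.m D.j, by omega, (D.hG _).2 (axis_atom D.S _ (by omega)
      (D.mem_of_le (i := D.j) (by simp)) fun k k' a1 a2 a3 a4 a5 => h ?_), Or.inr le_rfl⟩
    by_cases hk : k < D.c D.j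
    · exact ⟨k, a1, hk, a4⟩
    · exact ⟨k', a2, by omega, a5⟩

theorem tight_count (h0 : ∀ g ∈ D.L, D.m D.j ≤ g D.j)
    (h1 : ∀ r ∈ D.R, ¬ (1 ≤ D.lev r ∧ D.lev r < D.q r))
    (hS : (Pi.single D.j (D.m D.j) : ι → ℕ) ∉ D.S) : D.R.card + 1 ≤ (D.X D.j).card := by
  classical
  have hlt : D.m D.j < D.c D.j := by simpa using D.hbox _ hS D.j
  have low : ∀ a ∈ D.S, (∀ k, k ≠ D.j → a k < D.m k) → a D.j < D.c D.j →
      ∃ l : ℕ, D.cls a = D.cls (l • D.v) := by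
    intro a ha hk hj
    obtain ⟨r, hr, l, h⟩ := D.exists_coord a
    have h2 : D.lev r ≤ l := D.lev_le r (by
      rw [← map_nsmul, ← map_add, ← h]; exact D.light_mem_Z ha hk)
    have h3 := D.cls_lev h
    simp only [Pi.add_apply, Pi.smul_apply, smul_eq_mul, D.hvj] at h3
    have h4 : l < D.q r := by rw [q, lt_qq (D.hm _), mul_comm]; omega
    by_cases h5 : r = 0
    · exact ⟨l, by rw [h, h5, zero_add]⟩
    · exact absurd ⟨D.lev_pos h0 hr h5, by omega⟩ (h1 r hr)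
  set Y := D.R.image fun r => r + (Pi.single D.j (D.c D.j) : ι → ℕ) with hY
  have cY : Y.card = D.R.card := Finset.card_image_of_injective _ (add_left_injective _)
  have mY : ∀ y ∈ Y, (∀ k, k ≠ D.j → y k < D.m k) ∧ D.c D.j ≤ y D.j ∧
      y D.j < D.c D.j + D.m D.j := by
    intro y hy
    obtain ⟨r, hr, rfl⟩ := mem_image.1 hy
    have := D.mem_R.1 hr
    refine ⟨fun k hk => by simpa [hk] using this k, by simp, ?_⟩
    have := this D.j
    simp only [Pi.add_apply, Pi.single_eq_same]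
    omega
  have non : ∀ y ∈ Y, y ∉ D.G → D.cls y = D.cls (D.q 0 • D.v) := by
    intro y hy hg
    obtain ⟨a1, a2, a3⟩ := mY y hy
    have hc := D.hc D.j
    have : ∃ a ∈ D.S, ∃ b ∈ D.S, a + b = y ∧ a ≠ 0 ∧ b ≠ 0 := by
      by_contra hcon
      refine hg ((D.hG y).2 ⟨D.mem_of_le a2, fun h => ?_, fun a ha b hb hab => ?_⟩)
      · rw [h] at a2; simp at a2; omega
      · by_contra h
        push Not at h
        exact hcon ⟨a, ha, b, hb, hab, h.1, h.2⟩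
    obtain ⟨a, ha, b, hb, rfl, ha0, hb0⟩ := this
    simp only [Pi.add_apply] at a1 a2 a3
    have la : ∀ k, k ≠ D.j → a k < D.m k := fun k hk => by have := a1 k hk; omega
    have lb : ∀ k, k ≠ D.j → b k < D.m k := fun k hk => by have := a1 k hk; omega
    have ja : D.m D.j ≤ a D.j := not_lt.1 fun h => ha0 (D.empty_of h0 ha la h)
    have jb : D.m D.j ≤ b D.j := not_lt.1 fun h => hb0 (D.empty_of h0 hb lb h)
    obtain ⟨l, hl⟩ := low a ha la (by omega)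
    obtain ⟨l', hl'⟩ := low b hb lb (by omega)
    have e1 : D.cls (a + b) = D.cls ((l + l') • D.v) := by
      rw [map_add, hl, hl', add_nsmul, map_add]
    have e2 := D.cls_lev e1
    simp only [Pi.add_apply, Pi.smul_apply, smul_eq_mul, D.hvj] at e2
    have e3 : ¬ (l + l' < D.q 0) := by
      rw [q, lt_qq (D.hm _), mul_comm, Pi.zero_apply]; omega
    have e4 : l + l' ≤ D.q 0 := by
      by_contra e5
      have e6 : ¬ (D.q 0 < qq (D.c D.j) (D.m D.j) ((0 : ι → ℕ) D.j)) := lt_irrefl _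
      rw [lt_qq (D.hm _), Pi.zero_apply] at e6
      have := Nat.mul_le_mul_right (D.m D.j) (show D.q 0 + 1 ≤ l + l' by omega)
      rw [add_mul, mul_comm (D.q 0)] at this
      omega
    rw [e1, show l + l' = D.q 0 by omega]
  have c1 : (Y.filter fun y => y ∉ D.G).card ≤ 1 := by
    refine Finset.card_le_one.2 fun y hy y' hy' => ?_
    rw [mem_filter] at hy hy'
    exact D.cls_inj ((non y hy.1 hy.2).trans (non y' hy'.1 hy'.2).symm) (mY y hy.1).1
      (mY y' hy'.1).1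
  have c2 := Finset.card_filter_add_card_filter_not (s := Y) (fun y => y ∈ D.G)
  obtain ⟨b, hb0, hbG, hb⟩ := D.extra_atom hS
  have bL : (Pi.single D.j b : ι → ℕ) ∈ D.L :=
    D.mem_L.2 ⟨hbG, fun k hk => by simpa [hk] using D.hm k⟩
  have n1 : D.v ∉ Y.filter fun y => y ∈ D.G := fun h => by
    have := (mY _ (mem_filter.1 h).1).2.1
    have := D.hvj
    omega
  have n2 : (Pi.single D.j b : ι → ℕ) ∉ insert D.v (Y.filter fun y => y ∈ D.G) := by
    rw [mem_insert]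
    rintro (h | h)
    · have h2 := congrFun h D.j
      rw [Pi.single_eq_same, D.hvj] at h2
      exact hS (h2 ▸ D.GS hbG)
    · have := (mY _ (mem_filter.1 h).1).2
      rw [Pi.single_eq_same] at this
      omega
  have c3 : (insert (Pi.single D.j b : ι → ℕ) (insert D.v (Y.filter fun y => y ∈ D.G))).card ≤
      (D.X D.j).card := by
    refine Finset.card_le_card fun g hg => ?_
    rcases mem_insert.1 hg with rfl | hg
    · exact D.mem_X.2 ⟨hbG, (D.mem_L.1 bL).2, h0 _ bL⟩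
    rcases mem_insert.1 hg with rfl | hg
    · exact D.v_mem_X
    · obtain ⟨a1, a2, _⟩ := mY g (mem_filter.1 hg).1
      exact D.mem_X.2 ⟨(mem_filter.1 hg).2, a1, by omega⟩
  rw [card_insert_of_notMem n2, card_insert_of_notMem n1] at c3
  omega

theorem N_le : (D.N.card : ℝ) ≤ D.W * D.Lam := by
  classical
  rw [W_Lam]
  have : D.N.card ≤ (Fintype.piFinset fun k => range (D.c k)).card :=
    Finset.card_le_card (by unfold N; convert filter_subset _ _)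
  rw [Fintype.card_piFinset] at this
  simp only [card_range] at this
  exact_mod_cast this

theorem main (σ : Equiv.Perm ι) (hσ : ∀ i, σ i ≠ i) {M : ℕ} (hM : ∀ k, k ≠ D.j → D.m k ≤ M)
    {ε : ℝ} (hε : 0 ≤ ε) (hB : ∀ k, k ≠ D.j → (D.B M : ℝ) ≤ ε * D.c k)
    (hs : ε * D.W * (Fintype.card ι + D.G.card * (Fintype.card ι + 1)) * 4 * (D.c D.j + 1) ≤ 1) :
    Fintype.card ι * ∏ k, D.c k ≤ D.G.card * D.N.card := by
  classical
  by_cases hS : (∀ g ∈ D.L, D.m D.j ≤ g D.j) ∧ (Pi.single D.j (D.m D.j) : ι → ℕ) ∈ D.S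
  · exact Setup.wilf_two ⟨D.S, D.c, D.m, D.G, D.hc, D.hbox, D.hm, fun i => by
      by_cases h : i = D.j
      · rw [h]; exact hS.2
      · exact D.hmS i h, fun x hx h => D.empty_of hS.1 hx (fun k _ => h k) (h _), D.hG⟩ σ hσ
  have hL := D.Lam_pos
  have hW : (1 : ℝ) ≤ D.W := by exact_mod_cast D.W_pos
  have hp : (1 : ℝ) ≤ D.G.card := by exact_mod_cast Finset.card_pos.2 ⟨_, D.hvG⟩
  have hd : (1 : ℝ) ≤ Fintype.card ι := by exact_mod_cast Fintype.card_pos_iff.2 ⟨D.j⟩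
  have hc : (0 : ℝ) ≤ D.c D.j := Nat.cast_nonneg _
  set d : ℝ := (Fintype.card ι : ℝ) with hdd
  set p : ℝ := (D.G.card : ℝ) with hpp
  set W : ℝ := (D.W : ℝ) with hWW
  set y : ℝ := D.N.card / D.Lam with hy
  set ν : ℝ := y + (d + 1) * ε * W with hν
  have hA : 0 ≤ ε * W * (d + p * (d + 1)) := by positivity
  have hs1 : ε * W * (d + p * (d + 1)) * 4 ≤ 1 := by nlinarith
  have hs2 : ε * (d + 1) * 4 ≤ 1 := by
    have : ε * 1 * (d + 1) ≤ ε * W * (d + p * (d + 1)) := by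
      refine mul_le_mul (mul_le_mul_of_nonneg_left hW hε) ?_ (by positivity) (by positivity)
      nlinarith
    linarith
  have hε2 : ε ≤ 1 / 2 := by nlinarith
  have hW' : 0 < (1 - ε) * W := mul_pos (by linarith) (by linarith)
  have hnu : ∀ i, i ≠ D.j → D.nu i ≤ ν := fun i hi => by
    have h1 := D.count_real hi hM hε hB
    have h2 : D.nu i - (d + 1) * ε * W ≤ y := by
      rw [hy, le_div_iff₀ hL, mul_comm]; exact h1
    linarith
  have h1ν : 1 ≤ ν := (D.one_le_nu _).trans (hnu _ (hσ D.j))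
  have hcap : 0 ≤ D.capj := (Nat.cast_nonneg _).trans D.q_le_capj
  have key := fun (xj : ℝ) (hx : 0 ≤ xj) (h2 : W ≤ xj * D.capj) =>
    D.key (hσ D.j) hW' hx hnu (fun i hi => D.thick_real hi hM hε hB)
      (le_trans (by nlinarith) h2)
  have hsum : ((D.X D.j).card : ℝ) + ∑ i ∈ univ.erase D.j, ((D.X i).card : ℝ) =
      ((∑ i, (D.X i).card : ℕ) : ℝ) := by
    rw [Nat.cast_sum, ← Finset.add_sum_erase _ _ (mem_univ D.j)]
  have hle : ((∑ i, (D.X i).card : ℕ) : ℝ) ≤ p := Nat.cast_le.2 D.sum_X_le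
  have spare : ∀ xj : ℝ, 0 ≤ xj → W ≤ xj * D.capj →
      xj + ∑ i ∈ univ.erase D.j, ((D.X i).card : ℝ) ≤ p - 1 → d * W ≤ p * y := by
    intro xj hx h2 h3
    refine fin_spare hν h1ν ?_ (by linarith)
    have h4 := mul_le_mul_of_nonneg_right h3 (sq_nonneg ν)
    have h5 := mul_nonneg hW'.le D.slack_nonneg
    have h6 := key xj hx h2
    rw [mul_add] at h6
    linarith
  have goal : d * W ≤ p * y := by
    by_cases h0 : ∀ g ∈ D.L, D.m D.j ≤ g D.j
    swap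
    · push Not at h0
      obtain ⟨g, hg, h0⟩ := h0
      have h1 := D.sum_X_lt (D.mem_L.1 hg).1 fun i => by
        by_cases h : i = D.j
        · rw [h]; exact h0
        · exact (D.mem_L.1 hg).2 i h
      have h2 : ((∑ i, (D.X i).card : ℕ) : ℝ) + 1 ≤ p := by rw [hpp]; exact_mod_cast h1
      exact spare _ (Nat.cast_nonneg _) D.thin_real (by linarith)
    by_cases h1 : ∀ r ∈ D.R, ¬ (1 ≤ D.lev r ∧ D.lev r < D.q r)
    · have h2 : (D.R.card : ℝ) + 1 ≤ (D.X D.j).card := by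
        exact_mod_cast D.tight_count h0 h1 fun h => hS ⟨h0, h⟩
      have h3 : W ≤ D.R.card * D.q 0 := by
        have := Finset.sum_le_card_nsmul D.R D.q (D.q 0) fun r _ => D.q_le r
        rw [hWW]
        exact_mod_cast this
      have h4 : (0 : ℝ) ≤ D.R.card := Nat.cast_nonneg _
      refine spare ((D.X D.j).card - 1) (by linarith) (h3.trans ?_) (by linarith)
      exact mul_le_mul (by linarith) D.q_le_capj (Nat.cast_nonneg _) (by linarith)
    · push Not at h1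
      obtain ⟨r, hr, h1⟩ := h1
      have h2 : 1 / ((D.q 0 : ℝ) + 1) ≤ D.slack := by
        refine le_trans (le_of_eq (if_pos h1).symm) (Finset.single_le_sum
          (f := fun r => if 1 ≤ D.lev r ∧ D.lev r < D.q r then 1 / ((D.q 0 : ℝ) + 1) else 0)
          (fun _ _ => by positivity) hr)
      have h3 : (D.q 0 : ℝ) ≤ D.c D.j := Nat.cast_le.2 (D.q_le_c 0)
      have h4 : y ≤ W := by rw [hy, div_le_iff₀ hL]; exact D.N_le
      refine fin_margin hν h1ν D.slack_nonneg (by nlinarith) hε2 ?_ (le_trans ?_ h2)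
      · refine (key _ (Nat.cast_nonneg _) D.thin_real).trans ?_
        exact mul_le_mul_of_nonneg_right (by linarith) (sq_nonneg ν)
      · rw [le_div_iff₀ (by positivity)]
        nlinarith
  have h1 := mul_le_mul_of_nonneg_right goal hL.le
  rw [mul_assoc, mul_assoc, hy, div_mul_cancel₀ _ hL.ne', hWW, W_Lam, hdd, hpp] at h1
  exact_mod_cast h1

end TS

theorem exists_TS (S : AddSubmonoid (ι → ℕ)) (f : ι → ℕ) (hf : f ∉ S) (hle : ∀ h, h ∉ S → h ≤ f)
    (j : ι) : ∃ D : TS ι, D.j = j ∧ (∀ i, D.c i = f i + 1) ∧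
      Set.ncard {x : ι → ℕ | x ∈ S ∧ x ≠ 0 ∧ ∀ a ∈ S, ∀ b ∈ S, a + b = x → a = 0 ∨ b = 0} =
        D.G.card ∧
      Set.ncard {x : ι → ℕ | x ∈ S ∧ ∃ h : ι → ℕ, h ∉ S ∧ x ≤ h} = D.N.card := by
  classical
  have hbox : ∀ x, x ∉ S → ∀ i, x i < f i + 1 := fun x hx i => Nat.lt_succ_of_le (hle x hx i)
  have hax : ∀ i, (Pi.single i (f i + 1) : ι → ℕ) ∈ S := by
    intro i
    by_contra h
    have := hbox _ h i
    simp at this
  have hex : ∀ i, ∃ k, 0 < k ∧ (Pi.single i k : ι → ℕ) ∈ S :=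
    fun i => ⟨f i + 1, Nat.succ_pos _, hax i⟩
  have hfin := gen_finite S (fun i => f i + 1) (fun i => Nat.succ_pos _) hbox
  have hG : ∀ g, g ∈ hfin.toFinset ↔ g ∈ Gen S := fun g => hfin.mem_toFinset
  have hpos : ∀ i, 0 < Nat.find (hex i) := fun i => (Nat.find_spec (hex i)).1
  set A := hfin.toFinset.filter fun g => (∀ i, i ≠ j → g i < Nat.find (hex i)) ∧ g j ≠ 0 with hA
  have hg0 : (Pi.single j (Nat.find (hex j)) : ι → ℕ) ∈ A := by
    refine mem_filter.2 ⟨(hG _).2 (axis_atom S j (hpos j) (Nat.find_spec (hex j)).2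
      fun k k' a1 a2 a3 a4 _ => ?_), fun i hi => ?_, ?_⟩
    · have := Nat.find_min' (hex j) ⟨a1, a4⟩
      omega
    · rw [Pi.single_eq_of_ne hi]; exact hpos i
    · rw [Pi.single_eq_same]; exact (hpos j).ne'
  obtain ⟨v, hv, hmin⟩ := Finset.exists_min_image A (fun g => g j) ⟨_, hg0⟩
  obtain ⟨v1, v2, v3⟩ := mem_filter.1 hv
  refine ⟨⟨S, fun i => f i + 1, fun i => if i = j then v j else Nat.find (hex i), hfin.toFinset,
    j, v, fun i => Nat.succ_pos _, hbox, hG, fun i => ?_, fun i hi => ?_, fun i hi k h1 h2 h3 => ?_,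
    v1, fun i hi => ?_, (if_pos rfl).symm, fun g hg h => ?_, ?_⟩, rfl, fun i => rfl, ?_, ?_⟩
  · split_ifs
    · exact Nat.pos_of_ne_zero v3
    · exact hpos i
  · rw [if_neg hi]; exact (Nat.find_spec (hex i)).2
  · rw [if_neg hi] at h2
    have := Nat.find_min' (hex i) ⟨h1, h3⟩
    omega
  · rw [if_neg hi]; exact v2 i hi
  · rw [if_pos rfl]
    by_cases h0 : g j = 0
    · exact Or.inl h0
    · exact Or.inr (hmin g (mem_filter.2 ⟨hg, fun i hi => by simpa [hi] using h i hi, h0⟩))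
  · rw [if_pos rfl]
    have h1 := hmin _ hg0
    rw [Pi.single_eq_same] at h1
    exact h1.trans (Nat.find_min' (hex j) ⟨Nat.succ_pos _, hax j⟩)
  · exact Set.ncard_eq_toFinset_card _ hfin
  · rw [← Set.ncard_coe_finset]
    congr 1
    ext x
    simp only [TS.N, Set.mem_ofPred_eq, coe_filter, Fintype.mem_piFinset, mem_range]
    constructor
    · rintro ⟨hx, h, hh, hxh⟩
      exact ⟨fun i => Nat.lt_succ_of_le ((hxh i).trans (hle h hh i)), hx⟩
    · rintro ⟨hx, hxS⟩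
      exact ⟨hxS, f, hf, fun i => Nat.lt_succ_iff.1 (hx i)⟩

/-- The generalized Wilf inequality for boundedly many generators, one short side and all other
sides long. -/
theorem thin (d E h : ℕ) (hd : 2 ≤ d) : ∃ C : ℕ, ∀ (S : AddSubmonoid (Fin d → ℕ))
    (f : Fin d → ℕ) (j : Fin d), f ∉ S → (∀ x, x ∉ S → x ≤ f) → f j < h →
    (∀ i, i ≠ j → C ≤ f i) →
    Set.ncard {x : Fin d → ℕ | x ∈ S ∧ x ≠ 0 ∧ ∀ a ∈ S, ∀ b ∈ S, a + b = x → a = 0 ∨ b = 0} ≤ E →
    d * ∏ i : Fin d, (f i + 1) ≤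
      Set.ncard {x : Fin d → ℕ | x ∈ S ∧ x ≠ 0 ∧ ∀ a ∈ S, ∀ b ∈ S, a + b = x → a = 0 ∨ b = 0} *
      Set.ncard {x : Fin d → ℕ | x ∈ S ∧ ∃ h : Fin d → ℕ, h ∉ S ∧ x ≤ h} := by
  set M := (h + 1) ^ E with hM
  have hM1 : 1 ≤ M := Nat.one_le_pow _ _ (Nat.succ_pos _)
  set T := h * M ^ d * (d + E * (d + 1)) * 4 * (h + 1) + 1 with hT
  refine ⟨(E + d + 1) * ((M ^ d + h + M) * M) * T, fun S f j hf hle hj hC hE => ?_⟩
  obtain ⟨D, rfl, hc, hG, hN⟩ := exists_TS S f hf hle j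
  rw [hG] at hE
  rw [hG, hN]
  have hcj : D.c D.j ≤ h := by rw [hc]; omega
  have hm : ∀ k, k ≠ D.j → D.m k ≤ M := fun k hk =>
    (mult_le D.S D.c D.G D.hbox D.hG hk _ (D.hmin k hk)).trans
      ((Nat.pow_le_pow_left (by omega) _).trans (Nat.pow_le_pow_right (Nat.succ_pos _) hE))
  have hg : D.g0 ≤ M ^ d := by
    refine (Finset.prod_le_pow_card _ _ M fun k hk => hm k (ne_of_mem_erase hk)).trans ?_
    exact Nat.pow_le_pow_right hM1 (by simp)
  have hT0 : (0 : ℝ) < T := by exact_mod_cast Nat.succ_pos _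
  obtain ⟨n, rfl⟩ : ∃ n, d = n + 2 := ⟨d - 2, by omega⟩
  have key := D.main (finRotate (n + 2)) (fun i => by simp) hm (ε := 1 / T) (by positivity)
    (fun k hk => ?_) ?_
  · simpa [hc] using key
  · rw [one_div, ← div_eq_inv_mul, le_div_iff₀ hT0]
    have h1 : D.B M * T ≤ D.c k := by
      refine le_trans (Nat.mul_le_mul_right _ ?_) ((hC k hk).trans (by rw [hc]; omega))
      rw [TS.B, Fintype.card_fin]
      exact Nat.mul_le_mul (by omega) (Nat.mul_le_mul_right _ (by omega))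
    exact_mod_cast h1
  · have h1 : D.W * (n + 2 + D.G.card * (n + 2 + 1)) * 4 * (D.c D.j + 1) ≤ T := by
      rw [hT, D.W_eq]
      refine Nat.le_succ_of_le ?_
      gcongr
    have h2 : ((D.W * (n + 2 + D.G.card * (n + 2 + 1)) * 4 * (D.c D.j + 1) : ℕ) : ℝ) ≤ T :=
      Nat.cast_le.2 h1
    rw [← div_le_one hT0] at h2
    refine le_trans (le_of_eq ?_) h2
    rw [Fintype.card_fin]
    push_cast
    ring

/-- many generators or all sides long, extended to all sides but one long -/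
theorem combine (d : ℕ) (hd : 2 ≤ d)
    (H : ∃ C : ℕ, ∀ (S : AddSubmonoid (Fin d → ℕ)) (f : Fin d → ℕ), f ∉ S →
      (∀ x, x ∉ S → x ≤ f) →
      (C ≤ Set.ncard {x : Fin d → ℕ | x ∈ S ∧ x ≠ 0 ∧
        ∀ a ∈ S, ∀ b ∈ S, a + b = x → a = 0 ∨ b = 0} ∨ ∀ i, C ≤ f i) →
      d * ∏ i : Fin d, (f i + 1) ≤
        Set.ncard {x : Fin d → ℕ | x ∈ S ∧ x ≠ 0 ∧ ∀ a ∈ S, ∀ b ∈ S, a + b = x → a = 0 ∨ b = 0} *
        Set.ncard {x : Fin d → ℕ | x ∈ S ∧ ∃ h : Fin d → ℕ, h ∉ S ∧ x ≤ h}) :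
    ∃ C : ℕ, ∀ (S : AddSubmonoid (Fin d → ℕ)) (f : Fin d → ℕ), f ∉ S →
      (∀ x, x ∉ S → x ≤ f) →
      (C ≤ Set.ncard {x : Fin d → ℕ | x ∈ S ∧ x ≠ 0 ∧
        ∀ a ∈ S, ∀ b ∈ S, a + b = x → a = 0 ∨ b = 0} ∨ ∃ j, ∀ i, i ≠ j → C ≤ f i) →
      d * ∏ i : Fin d, (f i + 1) ≤
        Set.ncard {x : Fin d → ℕ | x ∈ S ∧ x ≠ 0 ∧ ∀ a ∈ S, ∀ b ∈ S, a + b = x → a = 0 ∨ b = 0} *
        Set.ncard {x : Fin d → ℕ | x ∈ S ∧ ∃ h : Fin d → ℕ, h ∉ S ∧ x ≤ h} := by
  obtain ⟨C, hC⟩ := H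
  obtain ⟨C', hC'⟩ := thin d C C hd
  refine ⟨max C C', fun S f hf hle h => ?_⟩
  by_cases he : C ≤ Set.ncard {x : Fin d → ℕ | x ∈ S ∧ x ≠ 0 ∧
      ∀ a ∈ S, ∀ b ∈ S, a + b = x → a = 0 ∨ b = 0}
  · exact hC S f hf hle (Or.inl he)
  rcases h with h | ⟨j, h⟩
  · exact absurd ((le_max_left _ _).trans h) he
  by_cases hj : C ≤ f j
  · refine hC S f hf hle (Or.inr fun i => ?_)
    by_cases hi : i = j
    · rw [hi]; exact hj
    · exact (le_max_left _ _).trans (h i hi)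
  · exact hC' S f j hf hle (not_le.1 hj) (fun i hi => (le_max_right _ _).trans (h i hi))
      (not_le.1 he).le

end Pool.Agent.MP_96f5a9_co.h96
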